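import Pool.Agent.N902.EW.Fi
import Pool.Agent.R352.E.Gen

/-!
# All exponential integrals and the numbers `S_k(x)` are algebraically independent over the field of the exponentials
-/

set_option autoImplicit false
set_option linter.unusedSectionVars false

open PowerSeries Set

namespace Pool.Agent.N902.EW

/-- the general criterion for values -/
theorem ai_general {ι : Type*} (G : Set ℂ) (y : ι → AA Qb) (D : ι → Derivation Qb (AA Qb) (AA Qb))
    (hG : ∀ z ∈ G, ∃ f : AA Qb, evA io f = z ∧ ∀ i, D i f = 0) (c : ι → AA Qb) (hc : ∀ i, c i ≠ 0)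
    (hy : ∀ i, D i (y i) = c i) (hy' : ∀ i j, i ≠ j → D i (y j) = 0) :
    AlgebraicIndependent (IntermediateField.adjoin ℚ G) (fun i => evA io (y i)) := by
  classical
  rw [IntermediateField.algebraicIndependent_adjoin_iff]
  let R' : Subalgebra ℚ ℂ := Algebra.adjoin ℚ G
  let R : Subring (AA Qb) := R'.toSubring.comap (evA io)
  have hinj := evA_injective io
  have hex : ∀ z ∈ Algebra.adjoin ℚ G, ∃ f : AA Qb, evA io f = z ∧ ∀ i, D i f = 0 := by
    intro z hz
    induction hz using Algebra.adjoin_induction with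
    | mem z hz => exact hG z hz
    | algebraMap r =>
      refine ⟨algebraMap Qb (AA Qb) (algebraMap ℚ Qb r), ?_, fun i => Derivation.map_algebraMap _ _⟩
      rw [evA_algebraMap]
      simp
    | add x y _ _ hx hy =>
      obtain ⟨f, hf, hf'⟩ := hx
      obtain ⟨g, hg, hg'⟩ := hy
      exact ⟨f + g, by rw [map_add, hf, hg], fun i => by rw [map_add, hf' i, hg' i, add_zero]⟩
    | mul x y _ _ hx hy =>
      obtain ⟨f, hf, hf'⟩ := hx
      obtain ⟨g, hg, hg'⟩ := hy
      exact ⟨f * g, by rw [map_mul, hf, hg], fun i => by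
        rw [Derivation.leibniz, hf' i, hg' i, smul_zero, smul_zero, add_zero]⟩
  have hkill : ∀ (b : R) (i : ι), D i b.1 = 0 := by
    intro b i
    obtain ⟨f, hf, hf'⟩ := hex (evA io b.1) b.2
    rw [← hinj hf]
    exact hf' i
  have hAI : AlgebraicIndependent R y :=
    ai_of_der (k := Qb) Subtype.val_injective y D (fun i b => hkill b i) c hc hy hy'
  let f : R →+* R' := ((evA io).comp R.subtype).codRestrict R'.toSubring (fun b => b.2)
  have hf : Function.Surjective f := by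
    rintro ⟨z, hz⟩
    obtain ⟨g, hg, -⟩ := hex z hz
    refine ⟨⟨g, ?_⟩, Subtype.ext hg⟩
    show evA io g ∈ R'
    rw [hg]; exact hz
  exact hAI.ringHom_of_comp_eq f (evA io) hf hinj (RingHom.ext fun b => rfl)

/-- the algebraic numbers and the exponentials of algebraic numbers -/
def GE : Set ℂ := {z | IsAlgebraic ℚ z} ∪ {z | ∃ b : ℂ, IsAlgebraic ℚ b ∧ z = Complex.exp b}

lemma GE_le : GE ⊆ GG := by
  rw [GG_eq]
  exact subset_union_left

/-- the field generated by the algebraic numbers and the exponentials of algebraic numbers -/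
noncomputable def E0 : IntermediateField ℚ ℂ := IntermediateField.adjoin ℚ GE

lemma exp_mem_E0 {b : ℂ} (hb : IsAlgebraic ℚ b) : Complex.exp b ∈ E0 :=
  IntermediateField.subset_adjoin _ _ (Or.inr ⟨b, hb, rfl⟩)

lemma killed_GE {z : ℂ} (hz : z ∈ GE) : ∃ f : AA Qb, evA io f = z ∧ ∀ (x : Qb) (n : ℕ), Ek x n f = 0 := by
  rcases hz with hz | ⟨b, hb, rfl⟩
  · exact ⟨algebraMap Qb (AA Qb) ⟨z, mem_algebraicClosure_iff'.2 hz.isIntegral⟩, evA_algebraMap _,
      fun x n => Derivation.map_algebraMap _ _⟩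
  · obtain ⟨b', rfl⟩ := mem_range_io hb
    refine ⟨mk b' [] adm_nil, ?_, fun x n => Ek_NS_self x n (mk_mem_NS _ _ (by simp))⟩
    rw [evA_mk, U_nil, evk_one, mul_one, evk_ex]

lemma Ek_zs_ne {x y : Qb} (hx : x ≠ 0) (hxy : x ≠ y) (n m : ℕ) (l : Qb) (h : Adm (zs y m)) :
    Ek x n (mk l (zs y m) h) = 0 := by
  refine Ek_NS_self x n (mk_mem_NS _ _ fun h1 => ?_)
  rcases mem_zs h1 with h2 | h2
  · exact hx h2
  · exact hxy h2

lemma smul_nil_ne (n : ℕ) : (((-1) ^ n : Qb) • mk 0 [] adm_nil : AA Qb) ≠ 0 := by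
  intro h
  have h1 : ((-1) ^ n : Qb) ≠ 0 := pow_ne_zero _ (by norm_num)
  rcases smul_eq_zero.1 h with h2 | h2
  · exact h1 h2
  · have h3 := congrArg (evA io) h2
    rw [evA_mk, evk_ex_zero, U_nil, evk_one, map_zero, mul_one] at h3
    exact one_ne_zero h3

/-- the values of the words `(0, …, 0, a)` are algebraically independent over the field of the exponentials -/
theorem ai_zs : AlgebraicIndependent E0 (fun p : {a : Qb // a ≠ 0} × ℕ => evA io (mk 0 (zs p.1.1 p.2) (adm_zs p.1.2 p.2))) := by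
  refine ai_general GE (fun p : {a : Qb // a ≠ 0} × ℕ => mk 0 (zs p.1.1 p.2) (adm_zs p.1.2 p.2)) (fun p => Ek p.1.1 p.2)
    (fun z hz => ?_) (fun p => ((-1) ^ p.2 : Qb) • mk 0 [] adm_nil) (fun p => smul_nil_ne _) (fun p => ?_) (fun p r hpr => ?_)
  · obtain ⟨f, hf, hf'⟩ := killed_GE hz
    exact ⟨f, hf, fun p => hf' _ _⟩
  · rw [Ek_zs p.1.2 p.2 p.2 0 _ adm_nil, if_pos rfl]
  · by_cases h1 : p.1.1 = r.1.1
    · have h2 : r.2 ≠ p.2 := fun h => hpr (Prod.ext (Subtype.ext h1) h.symm)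
      have h3 : mk 0 (zs r.1.1 r.2) (adm_zs r.1.2 r.2) = mk 0 (zs p.1.1 r.2) (adm_zs p.1.2 r.2) := by
        congr 1
        rw [h1]
      show Ek p.1.1 p.2 (mk 0 (zs r.1.1 r.2) (adm_zs r.1.2 r.2)) = 0
      rw [h3, Ek_zs p.1.2 p.2 r.2 0 _ adm_nil, if_neg h2]
    · exact Ek_zs_ne p.1.2 h1 _ _ _ _

/-- the joint theorem -/
theorem ai_joint (X : Set Qb) (hX : ∀ x ∈ X, ∀ y ∈ X, x + y ≠ 0) (hX0 : ∀ x : X, x.1 ≠ 0) :
    AlgebraicIndependent E0 (Sum.elim (fun p : X × ℕ => evA io (sk p.1.1 (hX0 p.1) p.2))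
      (fun p : {a : Qb // a ≠ 0} × ℕ => evA io (mk 0 (zs p.1.1 p.2) (adm_zs p.1.2 p.2)))) := by
  have hle : E0 ≤ IntermediateField.adjoin ℚ GG := IntermediateField.adjoin.mono _ _ _ GE_le
  let _ : Algebra E0 (IntermediateField.adjoin ℚ GG) := (IntermediateField.inclusion hle).toRingHom.toAlgebra
  have : IsScalarTower E0 (IntermediateField.adjoin ℚ GG) ℂ := IsScalarTower.of_algebraMap_eq fun _ => rfl
  refine ai_zs.sumElim_of_tower (S := IntermediateField.adjoin ℚ GG) ?_ (ai_values X hX hX0)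
  rintro _ ⟨p, rfl⟩
  refine ⟨⟨evA io (mk 0 (zs p.1.1 p.2) (adm_zs p.1.2 p.2)), IntermediateField.subset_adjoin _ _ ?_⟩, rfl⟩
  right
  refine ⟨zs p.1.1 p.2, adm_zs p.1.2 p.2, noOpp_zs p.2, ?_⟩
  rw [evA_mk, evk_ex_zero, one_mul]

/-- the value of `(0, …, 0, -x)` -/
lemma evA_zs_neg {x : ℝ} {a : Qb} (ha : a ≠ 0) (hx : io a = ((-x : ℝ) : ℂ)) (m : ℕ) :
    evA io (mk 0 (zs a m) (adm_zs ha m)) = ((-Pool.Agent.R352.E.EE (m + 1) x : ℝ) : ℂ) := by
  rw [evA_mk, evk_ex_zero, one_mul, evk]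
  have hs : Summable fun n => io (coeff n (U (zs a m))) := (EFK.U (φ := io) (zs a m)).summable_norm.of_norm
  rw [hs.tsum_eq_zero_add, coeff_U_zs ha, if_pos rfl, map_zero, zero_add, Pool.Agent.R352.E.EE, ← tsum_neg,
    Complex.ofReal_tsum]
  refine tsum_congr fun n => ?_
  rw [coeff_U_zs ha, if_neg (Nat.succ_ne_zero n), map_div₀, map_pow, map_mul, map_natCast, map_pow, map_natCast, hx]
  push_cast
  ring

end Pool.Agent.N902.EW
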