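import Pool.Agent.N902.EW.Ps

/-!
# The Poisson means of the tails as damped Bose integrals
-/

set_option autoImplicit false
set_option linter.unusedSectionVars false

open MeasureTheory Set

namespace Pool.Agent.N902.EW

lemma int_pow_exp (n : ℕ) {r : ℝ} (hr : 0 < r) :
    ∫ t in Ioi (0 : ℝ), t ^ n * Real.exp (-(r * t)) = n.factorial / r ^ (n + 1) := by
  have h := Real.integral_rpow_mul_exp_neg_mul_Ioi (a := (n : ℝ) + 1) (by positivity) hr
  have h2 : ∫ t in Ioi (0 : ℝ), t ^ n * Real.exp (-(r * t)) =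
      ∫ t in Ioi (0 : ℝ), t ^ ((n : ℝ) + 1 - 1) * Real.exp (-(r * t)) := by
    refine setIntegral_congr_fun measurableSet_Ioi fun t _ => ?_
    simp only [add_sub_cancel_right, Real.rpow_natCast]
  rw [h2, h, Real.Gamma_nat_eq_factorial]
  have h3 : (1 / r) ^ ((n : ℝ) + 1) = 1 / r ^ (n + 1) := by
    have : ((n : ℝ) + 1) = ((n + 1 : ℕ) : ℝ) := by push_cast; rfl
    rw [this, Real.rpow_natCast, one_div_pow]
  rw [h3]
  ring

lemma integrable_pow_exp (n : ℕ) {r : ℝ} (hr : 0 < r) :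
    IntegrableOn (fun t : ℝ => t ^ n * Real.exp (-(r * t))) (Ioi 0) := by
  by_contra h
  have h1 := int_pow_exp n hr
  rw [integral_undef h] at h1
  have : (0 : ℝ) < n.factorial / r ^ (n + 1) := by positivity
  exact absurd h1 this.ne

/-- the terms -/
noncomputable def Ft (m : ℕ) (x : ℂ) (p : ℕ × ℕ) (t : ℝ) : ℂ :=
  (x ^ p.1 / (p.1.factorial : ℂ)) * ((t ^ m * Real.exp (-(((p.2 : ℝ) + p.1 + 1) * t)) : ℝ) : ℂ)

theorem PT_eq_integral {m : ℕ} (hm : 1 ≤ m) (x : ℂ) : PT (m + 1) x = 1 / (m.factorial : ℂ) *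
    ∫ t in Ioi (0 : ℝ), ((t ^ m / (Real.exp t - 1) : ℝ) : ℂ) * Complex.exp (-x * (1 - Complex.exp (-t))) := by
  have hr : ∀ p : ℕ × ℕ, (0 : ℝ) < (p.2 : ℝ) + p.1 + 1 := fun p => by positivity
  have hint : ∀ p : ℕ × ℕ, ∫ t in Ioi (0 : ℝ), Ft m x p t =
      (x ^ p.1 / (p.1.factorial : ℂ)) * ((m.factorial / ((p.2 : ℝ) + p.1 + 1) ^ (m + 1) : ℝ) : ℂ) := by
    intro p
    simp only [Ft]
    rw [integral_const_mul, integral_complex_ofReal, int_pow_exp m (hr p)]
  have hI : ∀ p : ℕ × ℕ, Integrable (Ft m x p) (volume.restrict (Ioi 0)) := by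
    intro p
    exact ((integrable_pow_exp m (hr p)).ofReal).const_mul _
  have hnorm : ∀ p : ℕ × ℕ, ∫ t in Ioi (0 : ℝ), ‖Ft m x p t‖ =
      (‖x‖ ^ p.1 / (p.1.factorial : ℝ)) * (m.factorial / ((p.2 : ℝ) + p.1 + 1) ^ (m + 1)) := by
    intro p
    rw [← int_pow_exp m (hr p), ← integral_const_mul]
    refine setIntegral_congr_fun measurableSet_Ioi fun t ht => ?_
    have ht' : (0 : ℝ) < t := ht
    simp only [Ft]
    rw [norm_mul, norm_div, norm_pow, Complex.norm_natCast, Complex.norm_real, Real.norm_eq_abs,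
      abs_of_nonneg (by positivity)]
  have hS2 : Summable fun i : ℕ => (m.factorial : ℝ) / ((i : ℝ) + 1) ^ (m + 1) := by
    have h1 := (summable_nat_add_iff 1).2 (Real.summable_one_div_nat_pow.2 (show 1 < m + 1 by omega))
    refine (h1.mul_left (m.factorial : ℝ)).congr fun n => ?_
    push_cast
    ring
  have hsum : Summable fun p : ℕ × ℕ => ∫ t in Ioi (0 : ℝ), ‖Ft m x p t‖ := by
    refine Summable.of_nonneg_of_le (fun p => integral_nonneg fun _ => norm_nonneg _) (fun p => ?_)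
      ((Real.summable_pow_div_factorial ‖x‖).mul_of_nonneg hS2 (fun _ => by positivity) (fun _ => by positivity))
    rw [hnorm]
    refine mul_le_mul_of_nonneg_left ?_ (by positivity)
    refine div_le_div_of_nonneg_left (by positivity) (by positivity) ?_
    exact pow_le_pow_left₀ (by positivity) (by linarith [show (0 : ℝ) ≤ (p.1 : ℝ) by positivity]) _
  have key := hasSum_integral_of_summable_integral_norm hI hsum
  -- the right hand side of the key identity
  have hpt : ∀ t ∈ Ioi (0 : ℝ), ∑' p, Ft m x p t =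
      Complex.exp x * (((t ^ m / (Real.exp t - 1) : ℝ) : ℂ) * Complex.exp (-x * (1 - Complex.exp (-t)))) := by
    intro t ht
    have ht' : (0 : ℝ) < t := ht
    have hq : Real.exp (-t) < 1 := by rw [Real.exp_lt_one_iff]; linarith
    have hq0 : 0 < Real.exp (-t) := Real.exp_pos _
    set q : ℝ := Real.exp (-t) with hqdef
    have hFp : ∀ p : ℕ × ℕ, Ft m x p t = ((x * q) ^ p.1 / (p.1.factorial : ℂ)) * ((t ^ m * q * q ^ p.2 : ℝ) : ℂ) := by
      intro p
      have h1 : Real.exp (-(((p.2 : ℝ) + p.1 + 1) * t)) = q ^ p.2 * q ^ p.1 * q := by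
        rw [hqdef, ← Real.exp_nat_mul, ← Real.exp_nat_mul, ← Real.exp_add, ← Real.exp_add]
        congr 1
        ring
      rw [Ft, h1, mul_pow]
      push_cast
      ring
    have hA : Summable fun j : ℕ => ‖(x * q) ^ j / (j.factorial : ℂ)‖ := NormedSpace.norm_expSeries_div_summable (x * q)
    have hB : Summable fun i : ℕ => ‖((t ^ m * q * q ^ i : ℝ) : ℂ)‖ := by
      refine ((summable_geometric_of_lt_one hq0.le hq).mul_left (t ^ m * q)).congr fun i => ?_
      rw [Complex.norm_real, Real.norm_eq_abs, abs_of_nonneg (by positivity)]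
    rw [tsum_congr hFp, ← tsum_mul_tsum_of_summable_norm hA hB]
    have e1 : ∑' j : ℕ, (x * q) ^ j / (j.factorial : ℂ) = Complex.exp (x * q) := by
      rw [Complex.exp_eq_exp_ℂ, NormedSpace.exp_eq_tsum_div]
    have e2 : ∑' i : ℕ, ((t ^ m * q * q ^ i : ℝ) : ℂ) = ((t ^ m / (Real.exp t - 1) : ℝ) : ℂ) := by
      rw [← Complex.ofReal_tsum, tsum_mul_left, tsum_geometric_of_lt_one hq0.le hq]
      congr 1
      have h2 : Real.exp t = q⁻¹ := by rw [hqdef, Real.exp_neg, inv_inv]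
      rw [h2]
      have h3 : (1 : ℝ) - q ≠ 0 := by linarith
      have h4 : q ≠ 0 := hq0.ne'
      have h5 : q⁻¹ - 1 ≠ 0 := by
        have : q⁻¹ - 1 = (1 - q) / q := by field_simp
        rw [this]; exact div_ne_zero h3 h4
      field_simp
    rw [e1, e2]
    have h3 : Complex.exp (-(t : ℂ)) = (q : ℂ) := by rw [hqdef]; push_cast; rfl
    rw [h3]
    have h4 : Complex.exp (x * q) = Complex.exp x * Complex.exp (-x * (1 - q)) := by
      rw [← Complex.exp_add]; congr 1; ring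
    rw [h4]
    ring
  rw [setIntegral_congr_fun measurableSet_Ioi hpt, integral_const_mul] at key
  -- the left hand side
  have hsumC : Summable fun p : ℕ × ℕ => ∫ t in Ioi (0 : ℝ), Ft m x p t := key.summable
  have h5 := hsumC.tsum_prod
  rw [key.tsum_eq] at h5
  have h6 : ∀ j : ℕ, ∑' i : ℕ, ∫ t in Ioi (0 : ℝ), Ft m x (j, i) t =
      (m.factorial : ℂ) * (x ^ j / (j.factorial : ℂ) * ∑' i : ℕ, 1 / ((i : ℂ) + j + 1) ^ (m + 1)) := by
    intro j
    simp only [hint]
    rw [tsum_mul_left, ← tsum_mul_left, ← tsum_mul_left, ← tsum_mul_left]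
    refine tsum_congr fun i => ?_
    push_cast
    ring
  rw [tsum_congr h6, tsum_mul_left] at h5
  rw [PT]
  have hm0 : (m.factorial : ℂ) ≠ 0 := by exact_mod_cast m.factorial_ne_zero
  have h7 : ∑' j : ℕ, x ^ j / (j.factorial : ℂ) * ∑' i : ℕ, 1 / ((i : ℂ) + j + 1) ^ (m + 1) =
      1 / (m.factorial : ℂ) * (Complex.exp x * ∫ t in Ioi (0 : ℝ), ((t ^ m / (Real.exp t - 1) : ℝ) : ℂ) *
        Complex.exp (-x * (1 - Complex.exp (-t)))) := by
    rw [h5]
    field_simp
  rw [h7]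
  have h8 : Complex.exp (-x) * Complex.exp x = 1 := by rw [← Complex.exp_add, neg_add_cancel, Complex.exp_zero]
  calc Complex.exp (-x) * (1 / (m.factorial : ℂ) * (Complex.exp x * ∫ t in Ioi (0 : ℝ),
        ((t ^ m / (Real.exp t - 1) : ℝ) : ℂ) * Complex.exp (-x * (1 - Complex.exp (-t)))))
      = (Complex.exp (-x) * Complex.exp x) * (1 / (m.factorial : ℂ) * ∫ t in Ioi (0 : ℝ),
        ((t ^ m / (Real.exp t - 1) : ℝ) : ℂ) * Complex.exp (-x * (1 - Complex.exp (-t)))) := by ring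
    _ = _ := by rw [h8, one_mul]

end Pool.Agent.N902.EW
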