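import Pool.Agent.N902.EW.Ind2

/-!
# The algebra spanned by the functions `exp (l X) U_w`
-/

set_option autoImplicit false
set_option linter.unusedSectionVars false

open PowerSeries

namespace Pool.Agent.N902.EW

section

variable {K : Type*} [Field K] [CharZero K]

/-- the basis functions -/
noncomputable def bf (x : K × List K) : K⟦X⟧ := ex x.1 * U x.2

/-- the basis functions are linearly independent over the polynomials -/
theorem LI_poly : LinearIndependent (Polynomial K) (fun x : {x : K × List K // Adm x.2} => bf x.1) := by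
  classical
  rw [linearIndependent_iff']
  intro s g h x hx
  have key : ∀ t : Finset {x : K × List K // Adm x.2},
      Ph (∑ y ∈ t, Finsupp.single y.1.2 (Finsupp.single y.1.1 (g y)) : WE K) = ∑ y ∈ t, g y • bf y.1 := by
    intro t
    induction t using Finset.induction_on with
    | empty => rw [Finset.sum_empty, Finset.sum_empty, Ph_zero]
    | insert a t ha ih =>
      have h3 : (algebraMap (Polynomial K) K⟦X⟧) (g a) = (g a : K⟦X⟧) := by
        simp [PowerSeries.algebraMap_apply']
      rw [Finset.sum_insert ha, Finset.sum_insert ha, Ph_add, ih, Ph_single, psi_single, bf,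
        Algebra.smul_def, h3]
      congr 1
      ring
  have hP : ∀ w, (∑ y ∈ s, Finsupp.single y.1.2 (Finsupp.single y.1.1 (g y)) : WE K) w ≠ 0 → Adm w := by
    intro w hw
    rw [Finsupp.finsetSum_apply] at hw
    obtain ⟨y, _, hy⟩ := Finset.exists_ne_zero_of_sum_ne_zero hw
    rw [Finsupp.single_apply] at hy
    split_ifs at hy with h1
    · rw [← h1]; exact y.2
    · exact absurd rfl hy
  have h0 := Ph_inj hP (by rw [key s, h])
  have h1 : (∑ y ∈ s, Finsupp.single y.1.2 (Finsupp.single y.1.1 (g y)) : WE K) x.1.2 x.1.1 = 0 := by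
    rw [h0]; rfl
  rw [Finsupp.finsetSum_apply, Finsupp.finsetSum_apply, Finset.sum_eq_single x] at h1
  · rwa [Finsupp.single_eq_same, Finsupp.single_eq_same] at h1
  · intro y _ hyx
    by_cases h2 : y.1.2 = x.1.2
    · rw [h2, Finsupp.single_eq_same, Finsupp.single_eq_of_ne]
      intro h3
      exact hyx (Subtype.ext (Prod.ext h3.symm h2))
    · rw [Finsupp.single_eq_of_ne (Ne.symm h2)]
      rfl
  · intro h2; exact absurd hx h2

lemma LI_K : LinearIndependent K (fun x : {x : K × List K // Adm x.2} => bf x.1) := by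
  rw [linearIndependent_iff']
  intro s g h x hx
  have h1 := linearIndependent_iff'.1 (LI_poly (K := K)) s (fun y => Polynomial.C (g y)) (by
    rw [← h]
    refine Finset.sum_congr rfl fun y _ => ?_
    rw [Algebra.smul_def, PowerSeries.algebraMap_apply', smul_eq_C_mul]
    simp) x hx
  exact Polynomial.C_eq_zero.1 h1

/-! ### Products -/

/-- the span of the functions of the nonempty admissible words -/
def SP (K : Type*) [Field K] [CharZero K] : Submodule K K⟦X⟧ :=
  Submodule.span K {f | ∃ w : List K, Adm w ∧ w ≠ [] ∧ f = U w}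

lemma ig_mul_mem (a : K) {f : K⟦X⟧} (hf : f ∈ SP K) : ig (lt a * f) ∈ SP K := by
  refine Submodule.span_induction (p := fun f _ => ig (lt a * f) ∈ SP K) ?_ ?_ ?_ ?_ hf
  · rintro _ ⟨w, hw, hne, rfl⟩
    rw [← U_cons]
    exact Submodule.subset_span ⟨_, adm_cons hw hne, by simp, rfl⟩
  · rw [mul_zero]
    have : ig (0 : K⟦X⟧) = 0 := by ext n; rw [coeff_ig]; simp
    rw [this]
    exact Submodule.zero_mem _
  · intro x y _ _ hx hy
    rw [mul_add, ig_add]
    exact Submodule.add_mem _ hx hy
  · intro c x _ hx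
    rw [mul_smul_comm, ig_smul]
    exact Submodule.smul_mem _ _ hx

lemma U_mul_U : ∀ (n : ℕ) (u v : List K), u.length + v.length ≤ n → Adm u → Adm v → (u ≠ [] ∨ v ≠ []) →
    U u * U v ∈ SP K := by
  intro n
  induction n with
  | zero =>
    intro u v hn _ _ h
    have h1 : u = [] := List.length_eq_zero_iff.1 (by omega)
    have h2 : v = [] := List.length_eq_zero_iff.1 (by omega)
    rcases h with h | h
    · exact absurd h1 h
    · exact absurd h2 h
  | succ n ih =>
    intro u v hn hu hv h
    rcases u with _ | ⟨a, u⟩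
    · rw [U_nil, one_mul]
      exact Submodule.subset_span ⟨v, hv, h.resolve_left (fun h' => h' rfl), rfl⟩
    · rcases v with _ | ⟨b, v⟩
      · rw [U_nil, mul_one]
        exact Submodule.subset_span ⟨_, hu, by simp, rfl⟩
      · have h0 : coeff 0 (U (a :: u) * U (b :: v)) = 0 := by
          rw [coeff_zero_eq_constantCoeff_apply, map_mul, ← coeff_zero_eq_constantCoeff_apply,
            coeff_zero_U (by simp), zero_mul]
        have h1 : U (a :: u) * U (b :: v) = ig (lt a * (U u * U (b :: v))) + ig (lt b * (U (a :: u) * U v)) := by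
          rw [← ig_th h0, th_mul, th_U_cons hu, th_U_cons hv, ig_add]
          congr 2
          · ring
          · ring
        rw [h1]
        simp only [List.length_cons] at hn
        refine Submodule.add_mem _ (ig_mul_mem a ?_) (ig_mul_mem b ?_)
        · exact ih u (b :: v) (by simp only [List.length_cons]; omega) hu.tail hv (Or.inr (by simp))
        · exact ih (a :: u) v (by simp only [List.length_cons]; omega) hu hv.tail (Or.inl (by simp))

/-- the span of the functions of the admissible words -/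
def SW (K : Type*) [Field K] [CharZero K] : Submodule K K⟦X⟧ :=
  Submodule.span K {f | ∃ w : List K, Adm w ∧ f = U w}

lemma SP_le : SP K ≤ SW K := Submodule.span_mono (by rintro _ ⟨w, hw, _, rfl⟩; exact ⟨w, hw, rfl⟩)

lemma U_mem {w : List K} (hw : Adm w) : U w ∈ SW K := Submodule.subset_span ⟨w, hw, rfl⟩

lemma one_mem_SW : (1 : K⟦X⟧) ∈ SW K := Submodule.subset_span ⟨[], trivial, rfl⟩

lemma U_mul_U_mem {u v : List K} (hu : Adm u) (hv : Adm v) : U u * U v ∈ SW K := by
  by_cases h : u ≠ [] ∨ v ≠ []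
  · exact SP_le (U_mul_U _ u v le_rfl hu hv h)
  · push Not at h
    rw [h.1, h.2, U_nil, one_mul]
    exact one_mem_SW

lemma SW_mul {f g : K⟦X⟧} (hf : f ∈ SW K) (hg : g ∈ SW K) : f * g ∈ SW K := by
  refine Submodule.span_induction₂ (p := fun f g _ _ => f * g ∈ SW K) ?_ ?_ ?_ ?_ ?_ ?_ ?_ hf hg
  · rintro _ _ ⟨u, hu, rfl⟩ ⟨v, hv, rfl⟩
    exact U_mul_U_mem hu hv
  · intro y _; rw [zero_mul]; exact Submodule.zero_mem _
  · intro x _; rw [mul_zero]; exact Submodule.zero_mem _
  · intro x y z _ _ _ hx hy; rw [add_mul]; exact Submodule.add_mem _ hx hy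
  · intro x y z _ _ _ hx hy; rw [mul_add]; exact Submodule.add_mem _ hx hy
  · intro c x y _ _ h; rw [smul_mul_assoc]; exact Submodule.smul_mem _ _ h
  · intro c x y _ _ h; rw [mul_smul_comm]; exact Submodule.smul_mem _ _ h

/-- the span of the basis functions -/
def SA (K : Type*) [Field K] [CharZero K] : Submodule K K⟦X⟧ :=
  Submodule.span K {f | ∃ (l : K) (w : List K), Adm w ∧ f = ex l * U w}

lemma ex_mul_mem (l : K) {f : K⟦X⟧} (hf : f ∈ SW K) : ex l * f ∈ SA K := by
  refine Submodule.span_induction (p := fun f _ => ex l * f ∈ SA K) ?_ ?_ ?_ ?_ hf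
  · rintro _ ⟨w, hw, rfl⟩
    exact Submodule.subset_span ⟨l, w, hw, rfl⟩
  · rw [mul_zero]; exact Submodule.zero_mem _
  · intro x y _ _ hx hy; rw [mul_add]; exact Submodule.add_mem _ hx hy
  · intro c x _ hx; rw [mul_smul_comm]; exact Submodule.smul_mem _ _ hx

lemma SW_le_SA : SW K ≤ SA K := by
  intro f hf
  have := ex_mul_mem 0 hf
  rwa [ex_zero, one_mul] at this

lemma bf_mem {x : K × List K} (hx : Adm x.2) : bf x ∈ SA K := Submodule.subset_span ⟨x.1, x.2, hx, rfl⟩

lemma SA_mul {f g : K⟦X⟧} (hf : f ∈ SA K) (hg : g ∈ SA K) : f * g ∈ SA K := by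
  refine Submodule.span_induction₂ (p := fun f g _ _ => f * g ∈ SA K) ?_ ?_ ?_ ?_ ?_ ?_ ?_ hf hg
  · rintro _ _ ⟨l, u, hu, rfl⟩ ⟨m, v, hv, rfl⟩
    have : ex l * U u * (ex m * U v) = ex (l + m) * (U u * U v) := by rw [ex_add]; ring
    rw [this]
    exact ex_mul_mem _ (U_mul_U_mem hu hv)
  · intro y _; rw [zero_mul]; exact Submodule.zero_mem _
  · intro x _; rw [mul_zero]; exact Submodule.zero_mem _
  · intro x y z _ _ _ hx hy; rw [add_mul]; exact Submodule.add_mem _ hx hy
  · intro x y z _ _ _ hx hy; rw [mul_add]; exact Submodule.add_mem _ hx hy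
  · intro c x y _ _ h; rw [smul_mul_assoc]; exact Submodule.smul_mem _ _ h
  · intro c x y _ _ h; rw [mul_smul_comm]; exact Submodule.smul_mem _ _ h

/-- the algebra of the functions of the words -/
noncomputable def AW (K : Type*) [Field K] [CharZero K] : Subalgebra K K⟦X⟧ :=
  (SW K).toSubalgebra one_mem_SW fun _ _ => SW_mul

/-- the algebra spanned by the functions `exp (l X) U_w` -/
noncomputable def AA (K : Type*) [Field K] [CharZero K] : Subalgebra K K⟦X⟧ :=
  (SA K).toSubalgebra (SW_le_SA one_mem_SW) fun _ _ => SA_mul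

lemma mem_AA {f : K⟦X⟧} : f ∈ AA K ↔ f ∈ SA K := Iff.rfl

lemma mem_AW {f : K⟦X⟧} : f ∈ AW K ↔ f ∈ SW K := Iff.rfl

/-- every element of the algebra is a finite combination -/
lemma exists_sum {f : K⟦X⟧} (hf : f ∈ SA K) : ∃ (s : Finset (K × List K)) (c : K × List K → K),
    (∀ x ∈ s, Adm x.2) ∧ f = ∑ x ∈ s, c x • bf x := by
  classical
  have h1 : {f : K⟦X⟧ | ∃ (l : K) (w : List K), Adm w ∧ f = ex l * U w} = bf '' {x : K × List K | Adm x.2} := by
    ext f
    constructor
    · rintro ⟨l, w, hw, rfl⟩; exact ⟨(l, w), hw, rfl⟩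
    · rintro ⟨x, hx, rfl⟩; exact ⟨x.1, x.2, hx, rfl⟩
  rw [SA, h1, Finsupp.mem_span_image_iff_linearCombination] at hf
  obtain ⟨c, hc, rfl⟩ := hf
  refine ⟨c.support, c, fun x hx => hc hx, ?_⟩
  rw [Finsupp.linearCombination_apply, Finsupp.sum]

end

/-! ### Change of the field -/

section

variable {K L : Type*} [Field K] [CharZero K] [Field L] [CharZero L] (φ : K →+* L)

lemma map_ex (a : K) : PowerSeries.map φ (ex a) = ex (φ a) := by
  ext n
  rw [coeff_map, coeff_ex, coeff_ex, map_div₀, map_pow, map_natCast]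

lemma map_lt (a : K) : PowerSeries.map φ (lt a) = lt (φ a) := by
  by_cases h : a = 0
  · rw [h, lt_zero, map_one, map_zero, lt_zero]
  · rw [lt_ne h, map_sub, map_ex, map_one, lt_ne (by rwa [map_ne_zero])]

lemma map_ig (f : K⟦X⟧) : PowerSeries.map φ (ig f) = ig (PowerSeries.map φ f) := by
  ext n
  rw [coeff_map, coeff_ig, coeff_ig, coeff_map, map_div₀, map_natCast]

lemma map_th (f : K⟦X⟧) : PowerSeries.map φ (th f) = th (PowerSeries.map φ f) := by
  ext n
  rw [coeff_map, coeff_th, coeff_th, coeff_map, map_mul, map_natCast]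

lemma map_U (w : List K) : PowerSeries.map φ (U w) = U (w.map φ) := by
  induction w with
  | nil => rw [U_nil, map_one, List.map_nil, U_nil]
  | cons a v ih => rw [U_cons, map_ig, map_mul, map_lt, ih, List.map_cons, U_cons]

lemma map_adm {w : List K} (h : Adm w) : Adm (w.map φ) := by
  induction w with
  | nil => trivial
  | cons a v ih =>
    refine ⟨ih h.1, fun h' => ?_⟩
    rw [map_ne_zero]
    exact h.2 (List.map_eq_nil_iff.1 h')

/-- the action on the indices -/
def mx (x : K × List K) : L × List L := (φ x.1, x.2.map φ)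

lemma map_bf (x : K × List K) : PowerSeries.map φ (bf x) = bf (mx φ x) := by
  rw [bf, map_mul, map_ex, map_U]; rfl

lemma map_smul' (c : K) (f : K⟦X⟧) : PowerSeries.map φ (c • f) = φ c • PowerSeries.map φ f := by
  ext n
  simp

lemma map_SA {f : K⟦X⟧} (hf : f ∈ SA K) : PowerSeries.map φ f ∈ SA L := by
  refine Submodule.span_induction (p := fun f _ => PowerSeries.map φ f ∈ SA L) ?_ ?_ ?_ ?_ hf
  · rintro _ ⟨l, w, hw, rfl⟩
    rw [map_mul, map_ex, map_U]
    exact Submodule.subset_span ⟨_, _, map_adm φ hw, rfl⟩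
  · rw [map_zero]; exact Submodule.zero_mem _
  · intro x y _ _ hx hy; rw [map_add]; exact Submodule.add_mem _ hx hy
  · intro c x _ hx; rw [map_smul']; exact Submodule.smul_mem _ _ hx

end

end Pool.Agent.N902.EW
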