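import Pool.Agent.N902.EW.Tr

/-!
# The values as iterated integrals
-/

set_option autoImplicit false
set_option linter.unusedSectionVars false

open PowerSeries

namespace Pool.Agent.N902.EW

/-- the iterated integral `∫ ω_{a_1}(t_1) … ω_{a_n}(t_n)` over `t > t_1 > … > t_n > 0`, where `ω_0 = ds / s` and
`ω_a = (exp (a s) - 1) ds / s` for `a ≠ 0` -/
noncomputable def II : List ℂ → ℝ → ℂ
  | [], _ => 1
  | a :: v, t => ∫ s in (0 : ℝ)..t, (if a = 0 then 1 else Complex.exp (a * s) - 1) * II v s / s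

section

variable {K : Type*} [Field K] [CharZero K] [Algebra.IsAlgebraic ℚ K] (φ : K →+* ℂ)

/-- the value at `s` -/
noncomputable def es (s : ℝ) (f : K⟦X⟧) : ℂ := ∑' n, φ (coeff n f) * (s : ℂ) ^ n

variable {φ}

lemma norm_le_of {s : ℝ} (h0 : 0 ≤ s) (h1 : s ≤ 1) (f : K⟦X⟧) (n : ℕ) :
    ‖φ (coeff n f) * (s : ℂ) ^ n‖ ≤ ‖φ (coeff n f)‖ := by
  rw [norm_mul, norm_pow, Complex.norm_real, Real.norm_eq_abs, abs_of_nonneg h0]
  exact mul_le_of_le_one_right (norm_nonneg _) (pow_le_one₀ h0 h1)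

lemma summ {f : K⟦X⟧} (hf : EFK φ f) {s : ℝ} (h0 : 0 ≤ s) (h1 : s ≤ 1) :
    Summable fun n => ‖φ (coeff n f) * (s : ℂ) ^ n‖ :=
  Summable.of_nonneg_of_le (fun _ => norm_nonneg _) (norm_le_of h0 h1 f) hf.summable_norm

lemma es_mul {f g : K⟦X⟧} (hf : EFK φ f) (hg : EFK φ g) {s : ℝ} (h0 : 0 ≤ s) (h1 : s ≤ 1) :
    es φ s (f * g) = es φ s f * es φ s g := by
  rw [es, es, es, tsum_mul_tsum_eq_tsum_sum_antidiagonal_of_summable_norm (summ hf h0 h1) (summ hg h0 h1)]
  refine tsum_congr fun n => ?_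
  rw [coeff_mul, map_sum, Finset.sum_mul]
  refine Finset.sum_congr rfl fun p hp => ?_
  rw [Finset.HasAntidiagonal.mem_antidiagonal] at hp
  rw [map_mul, ← hp, pow_add]
  ring

lemma es_one (f : K⟦X⟧) : es φ 1 f = evk φ f := by
  rw [es, evk]
  exact tsum_congr fun n => by rw [Complex.ofReal_one, one_pow, mul_one]

lemma es_ex (a : K) (s : ℝ) : es φ s (ex a) = Complex.exp (φ a * s) := by
  rw [es, Complex.exp_eq_exp_ℂ, NormedSpace.exp_eq_tsum_div]
  refine tsum_congr fun n => ?_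
  rw [coeff_ex, map_div₀, map_pow, map_natCast, mul_pow]
  ring

lemma es_unit (s : ℝ) : es φ s (1 : K⟦X⟧) = 1 := by
  rw [es, tsum_eq_single 0]
  · simp
  · intro n hn; rw [coeff_one, if_neg hn, map_zero, zero_mul]

lemma es_lt (a : K) {s : ℝ} (h0 : 0 ≤ s) (h1 : s ≤ 1) :
    es φ s (lt a) = if φ a = 0 then 1 else Complex.exp (φ a * s) - 1 := by
  by_cases h : a = 0
  · rw [h, map_zero, if_pos rfl, lt_zero, es_unit]
  · rw [if_neg (fun h' => h ((map_eq_zero φ).1 h')), lt_ne h, ← es_ex, ← es_unit (φ := φ) s, es, es, es,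
      ← ((summ (EFK.ex a) h0 h1).of_norm).tsum_sub ((summ EFK.one h0 h1).of_norm)]
    exact tsum_congr fun n => by rw [map_sub, map_sub, sub_mul]

/-- termwise integration -/
lemma es_ig {f : K⟦X⟧} (hf : EFK φ f) (hf0 : coeff 0 f = 0) {t : ℝ} (h0 : 0 ≤ t) (h1 : t ≤ 1) :
    ∫ s in (0 : ℝ)..t, es φ s f / s = es φ t (ig f) := by
  have hsum : Summable fun n => ‖φ (coeff (n + 1) f)‖ :=
    (summable_nat_add_iff (f := fun n => ‖φ (coeff n f)‖) 1).2 hf.summable_norm
  have key := intervalIntegral.hasSum_integral_of_dominated_convergence (μ := MeasureTheory.volume) (a := (0 : ℝ))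
    (b := t) (F := fun (n : ℕ) (s : ℝ) => φ (coeff (n + 1) f) * (s : ℂ) ^ n) (f := fun s => es φ s f / s)
    (fun n _ => ‖φ (coeff (n + 1) f)‖)
    (fun n => by
      refine Continuous.aestronglyMeasurable ?_
      fun_prop)
    (fun n => by
      refine Filter.Eventually.of_forall fun s hs => ?_
      rw [Set.uIoc_of_le h0] at hs
      rw [norm_mul, norm_pow, Complex.norm_real, Real.norm_eq_abs, abs_of_nonneg hs.1.le]
      exact mul_le_of_le_one_right (norm_nonneg _) (pow_le_one₀ hs.1.le (hs.2.trans h1)))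
    (Filter.Eventually.of_forall fun s _ => hsum)
    intervalIntegrable_const
    (by
      refine Filter.Eventually.of_forall fun s hs => ?_
      rw [Set.uIoc_of_le h0] at hs
      have hs0 : (s : ℂ) ≠ 0 := by exact_mod_cast hs.1.ne'
      have h2 : HasSum (fun n => φ (coeff n f) * (s : ℂ) ^ n) (es φ s f) :=
        (summ hf hs.1.le (hs.2.trans h1)).of_norm.hasSum
      rw [← hasSum_nat_add_iff' 1] at h2
      simp only [Finset.range_one, Finset.sum_singleton, hf0, map_zero, zero_mul, sub_zero] at h2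
      have h3 := h2.div_const (s : ℂ)
      have h4 : (fun n => φ (coeff (n + 1) f) * (s : ℂ) ^ (n + 1) / (s : ℂ)) =
          fun n => φ (coeff (n + 1) f) * (s : ℂ) ^ n := by
        funext n
        rw [pow_succ]
        field_simp
      rw [h4] at h3
      exact h3)
  have h2 : ∀ n : ℕ, ∫ s in (0 : ℝ)..t, φ (coeff (n + 1) f) * (s : ℂ) ^ n =
      φ (coeff (n + 1) (ig f)) * (t : ℂ) ^ (n + 1) := by
    intro n
    rw [intervalIntegral.integral_const_mul, coeff_ig, map_div₀, map_natCast]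
    have h3 : ∫ s in (0 : ℝ)..t, (s : ℂ) ^ n = (t : ℂ) ^ (n + 1) / (n + 1) := by
      have h4 : ∀ s : ℝ, (s : ℂ) ^ n = ((s ^ n : ℝ) : ℂ) := fun s => by push_cast; rfl
      simp only [h4]
      rw [intervalIntegral.integral_ofReal, integral_pow]
      push_cast
      simp
    rw [h3]
    push_cast
    field_simp
  rw [← key.tsum_eq, es]
  have h5 : Summable fun n => φ (coeff n (ig f)) * (t : ℂ) ^ n := by
    rw [← summable_nat_add_iff 1]
    refine Summable.congr key.summable fun n => ?_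
    exact h2 n
  rw [h5.tsum_eq_zero_add, coeff_zero_ig, map_zero, zero_mul, zero_add]
  exact tsum_congr h2

/-- the values of the functions of the words are iterated integrals -/
theorem II_eq (w : List K) (hw : Adm w) : ∀ t : ℝ, 0 ≤ t → t ≤ 1 → II (w.map φ) t = es φ t (U w) := by
  induction w with
  | nil => intro t _ _; rw [List.map_nil, II, U_nil, es_unit]
  | cons a v ih =>
    intro t h0 h1
    have hlt : EFK φ (lt a) := EFK.lt a
    have hU : EFK φ (U v) := EFK.U v
    rw [List.map_cons, II, U_cons, ← es_ig (hlt.mul hU) (coeff_zero_lt_mul_U hw) h0 h1]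
    refine intervalIntegral.integral_congr fun s hs => ?_
    rw [Set.uIcc_of_le h0] at hs
    have hs1 : s ≤ 1 := hs.2.trans h1
    show (if φ a = 0 then 1 else Complex.exp (φ a * s) - 1) * II (v.map φ) s / s = es φ s (lt a * U v) / s
    rw [ih hw.1 s hs.1 hs1, es_mul hlt hU hs.1 hs1, es_lt a hs.1 hs1]

theorem II_one (w : List K) (hw : Adm w) : II (w.map φ) 1 = evk φ (U w) := by
  rw [II_eq w hw 1 zero_le_one le_rfl, es_one]

lemma evk_ex (a : K) : evk φ (ex a) = Complex.exp (φ a) := by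
  rw [← es_one, es_ex, Complex.ofReal_one, mul_one]

end

end Pool.Agent.N902.EW
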