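import Pool.Agent.N902.EW.Alg
import Pool.Agent.R352.E.EF

/-!
# The arithmetic conditions for E-functions over an algebraic field
-/

set_option autoImplicit false
set_option linter.unusedSectionVars false

open PowerSeries Finset.HasAntidiagonal

namespace Pool.Agent.N902.EW

section

variable {K : Type*} [Field K] [CharZero K]

/-- `m!` times the coefficient -/
noncomputable def ck (m : ℕ) (f : K⟦X⟧) : K := (m.factorial : K) * coeff m f

lemma ck_mul (m : ℕ) (f g : K⟦X⟧) :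
    ck m (f * g) = ∑ p ∈ antidiagonal m, (m.choose p.1 : K) * (ck p.1 f * ck p.2 g) := by
  unfold ck
  rw [coeff_mul, Finset.mul_sum]
  refine Finset.sum_congr rfl fun p hp => ?_
  rw [Finset.HasAntidiagonal.mem_antidiagonal] at hp
  have h1 : (m.factorial : K) = (m.choose p.1 : K) * p.1.factorial * p.2.factorial := by
    have := Nat.choose_mul_factorial_mul_factorial (show p.1 ≤ m by omega)
    rw [show m - p.1 = p.2 by omega] at this
    exact_mod_cast this.symm
  rw [h1]; ring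

lemma ck_add (m : ℕ) (f g : K⟦X⟧) : ck m (f + g) = ck m f + ck m g := by
  rw [ck, map_add, mul_add]; rfl

lemma ck_smul (m : ℕ) (c : K) (f : K⟦X⟧) : ck m (c • f) = c * ck m f := by
  rw [ck, coeff_smul, smul_eq_mul, ck]; ring

lemma ck_ex (m : ℕ) (a : K) : ck m (ex a) = a ^ m := by
  rw [ck, coeff_ex]
  have : (m.factorial : K) ≠ 0 := by exact_mod_cast m.factorial_ne_zero
  field_simp

lemma ck_ig (m : ℕ) (f : K⟦X⟧) : ck m (ig f) = ck m f / m := by
  rw [ck, coeff_ig, ck]; ring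

variable (φ : K →+* ℂ)

/-- Siegel's conditions (strict form) for a power series with coefficients in an algebraic field, the size being
measured by one embedding -/
def EFK (f : K⟦X⟧) : Prop := ∃ C : ℝ, 1 ≤ C ∧ (∀ m, ‖φ (ck m f)‖ ≤ C ^ (m + 1)) ∧
  ∀ m, ∃ d : ℕ, 0 < d ∧ (d : ℝ) ≤ C ^ (m + 1) ∧ ∀ j ≤ m, IsIntegral ℤ ((d : K) * ck j f)

variable {φ}

lemma EFK.add {f g : K⟦X⟧} (hf : EFK φ f) (hg : EFK φ g) : EFK φ (f + g) := by
  obtain ⟨C1, hC1, h1, d1⟩ := hf
  obtain ⟨C2, hC2, h2, d2⟩ := hg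
  have h12 : 1 ≤ C1 * C2 := one_le_mul_of_one_le_of_one_le hC1 hC2
  refine ⟨2 * (C1 * C2), by linarith, fun m => ?_, fun m => ?_⟩
  · rw [ck_add, map_add]
    have e1 : C1 ^ (m + 1) ≤ (C1 * C2) ^ (m + 1) := pow_le_pow_left₀ (by linarith) (le_mul_of_one_le_right (by linarith) hC2) _
    have e2 : C2 ^ (m + 1) ≤ (C1 * C2) ^ (m + 1) := pow_le_pow_left₀ (by linarith) (le_mul_of_one_le_left (by linarith) hC1) _
    have e4 : (2 : ℝ) ≤ 2 ^ (m + 1) := le_self_pow₀ (by norm_num) (by omega)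
    have e3 : (2 : ℝ) * (C1 * C2) ^ (m + 1) ≤ (2 * (C1 * C2)) ^ (m + 1) := by
      rw [mul_pow 2]
      exact mul_le_mul_of_nonneg_right e4 (pow_nonneg (by linarith) _)
    calc ‖φ (ck m f) + φ (ck m g)‖ ≤ ‖φ (ck m f)‖ + ‖φ (ck m g)‖ := norm_add_le _ _
      _ ≤ C1 ^ (m + 1) + C2 ^ (m + 1) := add_le_add (h1 m) (h2 m)
      _ ≤ 2 * (C1 * C2) ^ (m + 1) := by linarith
      _ ≤ _ := e3
  · obtain ⟨e1, he1, he1C, he1i⟩ := d1 m
    obtain ⟨e2, he2, he2C, he2i⟩ := d2 m
    refine ⟨e1 * e2, Nat.mul_pos he1 he2, ?_, fun j hj => ?_⟩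
    · push_cast
      calc (e1 : ℝ) * e2 ≤ C1 ^ (m + 1) * C2 ^ (m + 1) := mul_le_mul he1C he2C (by positivity) (by positivity)
        _ = (C1 * C2) ^ (m + 1) := (mul_pow _ _ _).symm
        _ ≤ _ := pow_le_pow_left₀ (by positivity) (by linarith) _
    · rw [ck_add, Nat.cast_mul]
      have : (e1 : K) * e2 * (ck j f + ck j g) = (e2 : K) * ((e1 : K) * ck j f) + (e1 : K) * ((e2 : K) * ck j g) := by ring
      rw [this]
      exact (isIntegral_natCast e2 |>.mul (he1i j hj)).add (isIntegral_natCast e1 |>.mul (he2i j hj))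

lemma EFK.mul {f g : K⟦X⟧} (hf : EFK φ f) (hg : EFK φ g) : EFK φ (f * g) := by
  obtain ⟨C1, hC1, h1, d1⟩ := hf
  obtain ⟨C2, hC2, h2, d2⟩ := hg
  set C := max C1 C2 with hC
  have hC0 : 1 ≤ C := hC1.trans (le_max_left _ _)
  have h1' : ∀ m, ‖φ (ck m f)‖ ≤ C ^ (m + 1) := fun m =>
    (h1 m).trans (pow_le_pow_left₀ (by linarith) (le_max_left _ _) _)
  have h2' : ∀ m, ‖φ (ck m g)‖ ≤ C ^ (m + 1) := fun m =>
    (h2 m).trans (pow_le_pow_left₀ (by linarith) (le_max_right _ _) _)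
  have hC2' : C ^ 2 ≤ 2 * C ^ 2 := by nlinarith [sq_nonneg C]
  refine ⟨2 * C ^ 2, by nlinarith, fun m => ?_, fun m => ?_⟩
  · rw [ck_mul, map_sum]
    refine (norm_sum_le _ _).trans ?_
    have h3 : ∀ p ∈ antidiagonal m, ‖φ ((m.choose p.1 : K) * (ck p.1 f * ck p.2 g))‖ ≤
        (m.choose p.1 : ℝ) * C ^ (m + 2) := by
      intro p hp
      rw [Finset.HasAntidiagonal.mem_antidiagonal] at hp
      rw [map_mul, map_mul, map_natCast, norm_mul, norm_mul, Complex.norm_natCast]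
      refine mul_le_mul_of_nonneg_left ?_ (by positivity)
      refine (mul_le_mul (h1' _) (h2' _) (norm_nonneg _) (by positivity)).trans (le_of_eq ?_)
      rw [← pow_add]; congr 1; omega
    refine (Finset.sum_le_sum h3).trans ?_
    rw [← Finset.sum_mul]
    have h4 : ∑ p ∈ antidiagonal m, (m.choose p.1 : ℝ) = 2 ^ m := by
      rw [Finset.Nat.sum_antidiagonal_eq_sum_range_succ_mk]
      exact_mod_cast Nat.sum_range_choose m
    rw [h4, mul_pow, ← pow_mul]
    refine mul_le_mul (pow_le_pow_right₀ (by norm_num) (by omega)) (pow_le_pow_right₀ hC0 (by omega))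
      (by positivity) (by positivity)
  · obtain ⟨e1, he1, he1C, he1i⟩ := d1 m
    obtain ⟨e2, he2, he2C, he2i⟩ := d2 m
    refine ⟨e1 * e2, Nat.mul_pos he1 he2, ?_, fun j hj => ?_⟩
    · push_cast
      calc (e1 : ℝ) * e2 ≤ C ^ (m + 1) * C ^ (m + 1) :=
            mul_le_mul (he1C.trans (pow_le_pow_left₀ (by linarith) (le_max_left _ _) _))
              (he2C.trans (pow_le_pow_left₀ (by linarith) (le_max_right _ _) _)) (by positivity) (by positivity)
        _ = (C ^ 2) ^ (m + 1) := by rw [← mul_pow, ← sq]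
        _ ≤ (2 * C ^ 2) ^ (m + 1) := pow_le_pow_left₀ (by positivity) hC2' _
    · rw [ck_mul, Finset.mul_sum]
      refine IsIntegral.sum _ fun p hp => ?_
      rw [Finset.HasAntidiagonal.mem_antidiagonal] at hp
      have : ((e1 * e2 : ℕ) : K) * ((j.choose p.1 : K) * (ck p.1 f * ck p.2 g)) =
          (j.choose p.1 : K) * (((e1 : K) * ck p.1 f) * ((e2 : K) * ck p.2 g)) := by push_cast; ring
      rw [this]
      exact (isIntegral_natCast _).mul ((he1i _ (by omega)).mul (he2i _ (by omega)))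

lemma exists_nat_integral [Algebra.IsAlgebraic ℚ K] (a : K) : ∃ d : ℕ, 0 < d ∧ IsIntegral ℤ ((d : K) * a) := by
  have h1 : IsAlgebraic ℤ a := (IsFractionRing.isAlgebraic_iff ℤ ℚ K).2 (Algebra.IsAlgebraic.isAlgebraic a)
  obtain ⟨y, hy, hi⟩ := h1.exists_integral_multiple
  refine ⟨y.natAbs, Int.natAbs_pos.2 hy, ?_⟩
  rcases Int.natAbs_eq y with h | h
  · have : ((y.natAbs : ℕ) : K) * a = y • a := by
      rw [zsmul_eq_mul]
      congr 1
      conv_rhs => rw [h]
      simp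
    rw [this]; exact hi
  · have : ((y.natAbs : ℕ) : K) * a = -(y • a) := by
      rw [zsmul_eq_mul]
      conv_rhs => rw [h]
      simp
    rw [this]; exact hi.neg

lemma EFK.ex [Algebra.IsAlgebraic ℚ K] (a : K) : EFK φ (ex a) := by
  obtain ⟨d, hd, hi⟩ := exists_nat_integral a
  set C : ℝ := max (max 1 ‖φ a‖) d with hC
  have hC1 : 1 ≤ C := (le_max_left _ _).trans (le_max_left _ _)
  have hCa : ‖φ a‖ ≤ C := (le_max_right _ _).trans (le_max_left _ _)
  have hCd : (d : ℝ) ≤ C := le_max_right _ _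
  refine ⟨C, hC1, fun m => ?_, fun m => ⟨d ^ m, by positivity, ?_, fun j hj => ?_⟩⟩
  · rw [ck_ex, map_pow, norm_pow]
    exact (pow_le_pow_left₀ (norm_nonneg _) hCa m).trans (pow_le_pow_right₀ hC1 (Nat.le_succ m))
  · push_cast
    exact (pow_le_pow_left₀ (by positivity) hCd m).trans (pow_le_pow_right₀ hC1 (Nat.le_succ m))
  · rw [ck_ex]
    have : ((d ^ m : ℕ) : K) * a ^ j = ((d ^ (m - j) : ℕ) : K) * ((d : K) * a) ^ j := by
      push_cast
      rw [mul_pow, ← mul_assoc, ← pow_add]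
      congr 2; omega
    rw [this]
    exact (isIntegral_natCast _).mul (hi.pow j)

lemma EFK.one [Algebra.IsAlgebraic ℚ K] : EFK φ (1 : K⟦X⟧) := by
  have := EFK.ex (φ := φ) (0 : K)
  rwa [ex_zero] at this

lemma EFK.smul [Algebra.IsAlgebraic ℚ K] (c : K) {f : K⟦X⟧} (hf : EFK φ f) : EFK φ (c • f) := by
  obtain ⟨d, hd, hi⟩ := exists_nat_integral c
  obtain ⟨C1, hC1, h1, d1⟩ := hf
  set D : ℝ := max (max 1 ‖φ c‖) d with hD
  have hD1 : 1 ≤ D := (le_max_left _ _).trans (le_max_left _ _)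
  have hDa : ‖φ c‖ ≤ D := (le_max_right _ _).trans (le_max_left _ _)
  have hDd : (d : ℝ) ≤ D := le_max_right _ _
  have hDp : ∀ m, D ≤ D ^ (m + 1) := fun m => le_self_pow₀ hD1 (by omega)
  refine ⟨D * C1, one_le_mul_of_one_le_of_one_le hD1 hC1, fun m => ?_, fun m => ?_⟩
  · rw [ck_smul, map_mul, norm_mul, mul_pow]
    exact mul_le_mul (hDa.trans (hDp m)) (h1 m) (norm_nonneg _) (by positivity)
  · obtain ⟨e, he, heC, hei⟩ := d1 m
    refine ⟨d * e, Nat.mul_pos hd he, ?_, fun j hj => ?_⟩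
    · push_cast
      rw [mul_pow]
      exact mul_le_mul (hDd.trans (hDp m)) heC (by positivity) (by positivity)
    · rw [ck_smul, Nat.cast_mul]
      have : (d : K) * e * (c * ck j f) = ((d : K) * c) * ((e : K) * ck j f) := by ring
      rw [this]
      exact hi.mul (hei j hj)

lemma EFK.zero [Algebra.IsAlgebraic ℚ K] : EFK φ (0 : K⟦X⟧) := by
  have := EFK.smul (φ := φ) (0 : K) EFK.one
  rwa [zero_smul] at this

lemma EFK.ig {f : K⟦X⟧} (hf : EFK φ f) : EFK φ (ig f) := by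
  obtain ⟨C1, hC1, h1, d1⟩ := hf
  refine ⟨2 ^ 8 * C1, by linarith, fun m => ?_, fun m => ?_⟩
  · rw [ck_ig, map_div₀, map_natCast, norm_div, Complex.norm_natCast]
    rcases m with _ | m
    · simp only [Nat.cast_zero, div_zero]; positivity
    · have hm : (1 : ℝ) ≤ ((m + 1 : ℕ) : ℝ) := by exact_mod_cast Nat.succ_le_succ (Nat.zero_le m)
      refine (div_le_self (norm_nonneg _) hm).trans ((h1 _).trans ?_)
      exact pow_le_pow_left₀ (by linarith) (by linarith) _
  · obtain ⟨e, he, heC, hei⟩ := d1 m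
    refine ⟨Nat.lcmUpto m * e, Nat.mul_pos (Nat.lcmUpto_pos m) he, ?_, fun j hj => ?_⟩
    · push_cast
      rw [mul_pow]
      refine mul_le_mul ((Pool.Agent.R352.E.lcm_bound m).trans ?_) heC (by positivity) (by positivity)
      exact pow_le_pow_right₀ (by norm_num) (Nat.le_succ m)
    · rw [ck_ig]
      rcases j with _ | j
      · simp only [Nat.cast_zero, div_zero, mul_zero]; exact isIntegral_zero
      · have hdv : j + 1 ∣ Nat.lcmUpto m := Finset.dvd_lcm (f := id) (Finset.mem_Icc.2 ⟨by omega, hj⟩)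
        obtain ⟨c, hc⟩ := hdv
        have h3 : (((j + 1 : ℕ) : K)) ≠ 0 := by exact_mod_cast Nat.succ_ne_zero j
        have : ((Nat.lcmUpto m * e : ℕ) : K) * (ck (j + 1) f / ((j + 1 : ℕ) : K)) = (c : K) * ((e : K) * ck (j + 1) f) := by
          rw [hc]
          push_cast at h3 ⊢
          field_simp
        rw [this]
        exact (isIntegral_natCast _).mul (hei _ hj)

lemma EFK.neg [Algebra.IsAlgebraic ℚ K] {f : K⟦X⟧} (hf : EFK φ f) : EFK φ (-f) := by
  have := hf.smul (-1)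
  rwa [neg_smul, one_smul] at this

lemma EFK.lt [Algebra.IsAlgebraic ℚ K] (a : K) : EFK φ (lt a) := by
  by_cases h : a = 0
  · rw [h, lt_zero]; exact EFK.one
  · rw [lt_ne h, sub_eq_add_neg]; exact (EFK.ex a).add EFK.one.neg

lemma EFK.U [Algebra.IsAlgebraic ℚ K] (w : List K) : EFK φ (U w) := by
  induction w with
  | nil => exact EFK.one
  | cons a v ih => exact ((EFK.lt a).mul ih).ig

lemma EFK.of_mem [Algebra.IsAlgebraic ℚ K] {f : K⟦X⟧} (hf : f ∈ SA K) : EFK φ f := by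
  refine Submodule.span_induction (p := fun f _ => EFK φ f) ?_ ?_ ?_ ?_ hf
  · rintro _ ⟨l, w, hw, rfl⟩
    exact (EFK.ex l).mul (EFK.U w)
  · exact EFK.zero
  · intro x y _ _ hx hy; exact hx.add hy
  · intro c x _ hx; exact hx.smul c

/-! ### Evaluation at `1` -/

variable (φ)

/-- the value at `1` -/
noncomputable def evk (f : K⟦X⟧) : ℂ := ∑' m, φ (coeff m f)

variable {φ}

lemma EFK.summable_norm {f : K⟦X⟧} (hf : EFK φ f) : Summable fun m => ‖φ (coeff m f)‖ := by
  obtain ⟨C, hC, h, _⟩ := hf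
  have hs : Summable (fun m : ℕ => C * (C ^ m / (m.factorial : ℝ))) := (Real.summable_pow_div_factorial C).mul_left C
  refine Summable.of_nonneg_of_le (fun m => norm_nonneg _) (fun m => ?_) hs
  have h1 := h m
  rw [ck, map_mul, map_natCast, norm_mul, Complex.norm_natCast] at h1
  rw [mul_div_assoc', le_div_iff₀ (by positivity), ← pow_succ']
  linarith

lemma evk_add {f g : K⟦X⟧} (hf : EFK φ f) (hg : EFK φ g) : evk φ (f + g) = evk φ f + evk φ g := by
  rw [evk, evk, evk, ← (hf.summable_norm.of_norm).tsum_add hg.summable_norm.of_norm]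
  exact tsum_congr fun m => by rw [map_add, map_add]

lemma evk_smul (c : K) (f : K⟦X⟧) : evk φ (c • f) = φ c * evk φ f := by
  rw [evk, evk, ← tsum_mul_left]
  exact tsum_congr fun m => by rw [coeff_smul, smul_eq_mul, map_mul]

lemma evk_mul {f g : K⟦X⟧} (hf : EFK φ f) (hg : EFK φ g) : evk φ (f * g) = evk φ f * evk φ g := by
  rw [evk, evk, evk, tsum_mul_tsum_eq_tsum_sum_antidiagonal_of_summable_norm hf.summable_norm hg.summable_norm]
  exact tsum_congr fun m => by
    rw [coeff_mul, map_sum]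
    exact Finset.sum_congr rfl fun p _ => by rw [map_mul]

lemma evk_one : evk φ (1 : K⟦X⟧) = 1 := by
  rw [evk, tsum_eq_single 0]
  · simp
  · intro m hm; rw [coeff_one, if_neg hm, map_zero]

lemma evk_zero : evk φ (0 : K⟦X⟧) = 0 := by
  rw [evk]; simp

variable (φ)

/-- the evaluation at `1` as a ring homomorphism on the algebra -/
noncomputable def evA [Algebra.IsAlgebraic ℚ K] : AA K →+* ℂ where
  toFun f := evk φ f.1
  map_one' := evk_one
  map_zero' := evk_zero
  map_mul' f g := evk_mul (EFK.of_mem f.2) (EFK.of_mem g.2)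
  map_add' f g := evk_add (EFK.of_mem f.2) (EFK.of_mem g.2)

end

end Pool.Agent.N902.EW
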