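import Pool.Agent.N902.EW.Ar

/-!
# Finite stable sets of indices, the direct sum decomposition
-/

set_option autoImplicit false
set_option linter.unusedSectionVars false

open PowerSeries

namespace Pool.Agent.N902.EW

section

variable {K : Type*} [Field K] [CharZero K]

/-- the sum `∑ X^n g_n` determines its terms -/
lemma direct (m : ℕ) (g : ℕ → K⟦X⟧) (hg : ∀ n, g n ∈ SA K)
    (h : ∑ n ∈ Finset.range m, X ^ n * g n = 0) : ∀ n < m, g n = 0 := by
  classical
  choose s c hs hc using fun n => exists_sum (hg n)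
  let T : Finset (K × List K) := (Finset.range m).biUnion s
  let c' : ℕ → K × List K → K := fun n x => if x ∈ s n then c n x else 0
  have hT : ∀ n < m, g n = ∑ x ∈ T, c' n x • bf x := by
    intro n hn
    rw [hc n, ← Finset.sum_subset (Finset.subset_biUnion_of_mem s (Finset.mem_range.2 hn))]
    · exact Finset.sum_congr rfl fun x hx => by simp only [c', if_pos hx]
    · intro x _ hx
      simp only [c', if_neg hx, zero_smul]
  have hadm : ∀ x ∈ T, Adm x.2 := by
    intro x hx
    obtain ⟨n, _, hn⟩ := Finset.mem_biUnion.1 hx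
    exact hs n x hn
  have key : ∀ x ∈ T, (∑ n ∈ Finset.range m, Polynomial.C (c' n x) * Polynomial.X ^ n : Polynomial K) = 0 := by
    let ι : T → {x : K × List K // Adm x.2} := fun x => ⟨x.1, hadm x.1 x.2⟩
    have hι : Function.Injective ι := fun x y hxy => Subtype.ext (congrArg (fun z => z.1) hxy)
    have hLI := (LI_poly (K := K)).comp ι hι
    rw [Fintype.linearIndependent_iff] at hLI
    intro x hx
    refine hLI (fun x => ∑ n ∈ Finset.range m, Polynomial.C (c' n x.1) * Polynomial.X ^ n) ?_ ⟨x, hx⟩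
    rw [← h]
    have h1 : ∀ x : K × List K, (∑ n ∈ Finset.range m, Polynomial.C (c' n x) * Polynomial.X ^ n : Polynomial K) • bf x =
        ∑ n ∈ Finset.range m, X ^ n * (c' n x • bf x) := by
      intro x
      rw [Finset.sum_smul]
      refine Finset.sum_congr rfl fun n _ => ?_
      rw [Algebra.smul_def, PowerSeries.algebraMap_apply', smul_eq_C_mul]
      simp
      ring
    calc ∑ i : T, (∑ n ∈ Finset.range m, Polynomial.C (c' n i.1) * Polynomial.X ^ n : Polynomial K) • bf i.1
        = ∑ x ∈ T, (∑ n ∈ Finset.range m, Polynomial.C (c' n x) * Polynomial.X ^ n : Polynomial K) • bf x :=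
          Finset.sum_coe_sort T (fun x => (∑ n ∈ Finset.range m, Polynomial.C (c' n x) * Polynomial.X ^ n :
            Polynomial K) • bf x)
      _ = ∑ x ∈ T, ∑ n ∈ Finset.range m, X ^ n * (c' n x • bf x) := Finset.sum_congr rfl fun x _ => h1 x
      _ = ∑ n ∈ Finset.range m, ∑ x ∈ T, X ^ n * (c' n x • bf x) := Finset.sum_comm
      _ = ∑ n ∈ Finset.range m, X ^ n * g n := Finset.sum_congr rfl fun n hn => by
          rw [hT n (Finset.mem_range.1 hn), Finset.mul_sum]
  intro n hn
  rw [hT n hn]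
  refine Finset.sum_eq_zero fun x hx => ?_
  have h1 := congrArg (fun p => Polynomial.coeff p n) (key x hx)
  simp only [Polynomial.finsetSum_coeff, Polynomial.coeff_C_mul, Polynomial.coeff_X_pow, Polynomial.coeff_zero] at h1
  rw [Finset.sum_eq_single n] at h1
  · rw [if_pos rfl, mul_one] at h1
    rw [h1, zero_smul]
  · intro k _ hk
    rw [if_neg (Ne.symm hk), mul_zero]
  · intro h2; exact absurd (Finset.mem_range.2 hn) h2

/-! ### Finite stable sets of indices -/

open Classical in
/-- the indices which occur in the derivatives -/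
noncomputable def Dn : K → List K → Finset (K × List K)
  | l, [] => {(l, [])}
  | l, a :: v => insert (l, a :: v) (Dn l v ∪ Dn (l + a) v)

lemma mem_Dn_nil {l : K} {x : K × List K} : x ∈ Dn l [] ↔ x = (l, []) := by
  rw [Dn, Finset.mem_singleton]

lemma mem_Dn_cons {l a : K} {v : List K} {x : K × List K} :
    x ∈ Dn l (a :: v) ↔ x = (l, a :: v) ∨ x ∈ Dn l v ∨ x ∈ Dn (l + a) v := by
  classical
  rw [Dn]
  simp only [Finset.mem_insert, Finset.mem_union]

lemma self_mem_Dn (l : K) (w : List K) : (l, w) ∈ Dn l w := by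
  cases w with
  | nil => exact mem_Dn_nil.2 rfl
  | cons a v => exact mem_Dn_cons.2 (Or.inl rfl)

lemma Dn_adm {w : List K} (hw : Adm w) (l : K) : ∀ x ∈ Dn l w, Adm x.2 := by
  induction w generalizing l with
  | nil => intro x hx; rw [mem_Dn_nil] at hx; rw [hx]; trivial
  | cons a v ih =>
    intro x hx
    rw [mem_Dn_cons] at hx
    rcases hx with rfl | hx | hx
    · exact hw
    · exact ih hw.tail l x hx
    · exact ih hw.tail (l + a) x hx

lemma Dn_closed (l : K) (w : List K) {m b : K} {u : List K} (h : (m, b :: u) ∈ Dn l w) :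
    (m, u) ∈ Dn l w ∧ (m + b, u) ∈ Dn l w := by
  induction w generalizing l with
  | nil => rw [mem_Dn_nil] at h; simp at h
  | cons a v ih =>
    rw [mem_Dn_cons] at h
    rw [mem_Dn_cons, mem_Dn_cons]
    rcases h with h | h | h
    · simp only [Prod.mk.injEq, List.cons.injEq] at h
      obtain ⟨rfl, rfl, rfl⟩ := h
      exact ⟨Or.inr (Or.inl (self_mem_Dn _ _)), Or.inr (Or.inr (self_mem_Dn _ _))⟩
    · have := ih l h
      exact ⟨Or.inr (Or.inl this.1), Or.inr (Or.inl this.2)⟩
    · have := ih (l + a) h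
      exact ⟨Or.inr (Or.inr this.1), Or.inr (Or.inr this.2)⟩

lemma Dn_map {L : Type*} [Field L] [CharZero L] (φ : K →+* L) (l : K) (w : List K) {x : K × List K}
    (h : x ∈ Dn l w) : mx φ x ∈ Dn (φ l) (w.map φ) := by
  induction w generalizing l with
  | nil =>
    rw [mem_Dn_nil] at h
    rw [h, List.map_nil, mem_Dn_nil]; rfl
  | cons a v ih =>
    rw [mem_Dn_cons] at h
    rw [List.map_cons, mem_Dn_cons]
    rcases h with h | h | h
    · left; rw [h]; rfl
    · right; left; exact ih l h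
    · right; right
      have := ih (l + a) h
      rwa [map_add] at this

/-- the conditions on a finite set of indices -/
structure Stb (I : Finset (K × List K)) : Prop where
  adm : ∀ x ∈ I, Adm x.2
  one : ((0 : K), ([] : List K)) ∈ I
  cl : ∀ (m b : K) (u : List K), (m, b :: u) ∈ I → (m, u) ∈ I ∧ (m + b, u) ∈ I

/-- the span -/
def VI (I : Finset (K × List K)) : Submodule K K⟦X⟧ := Submodule.span K (bf '' (I : Set (K × List K)))

lemma VI_le {I : Finset (K × List K)} (hI : Stb I) : VI I ≤ SA K := by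
  refine Submodule.span_le.2 ?_
  rintro _ ⟨x, hx, rfl⟩
  exact bf_mem (hI.adm x hx)

lemma one_mem_VI {I : Finset (K × List K)} (hI : Stb I) : (1 : K⟦X⟧) ∈ VI I := by
  refine Submodule.subset_span ⟨_, hI.one, ?_⟩
  rw [bf, ex_zero, U_nil, one_mul]

/-- the derivative of an element of the span -/
lemma VI_th {I : Finset (K × List K)} (hI : Stb I) {f : K⟦X⟧} (hf : f ∈ VI I) :
    ∃ g ∈ VI I, ∃ h ∈ VI I, th f = g + X * h := by
  refine Submodule.span_induction (p := fun f _ => ∃ g ∈ VI I, ∃ h ∈ VI I, th f = g + X * h) ?_ ?_ ?_ ?_ hf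
  · rintro _ ⟨⟨l, w⟩, hx, rfl⟩
    have hmem : ∀ y ∈ I, bf y ∈ VI I := fun y hy => Submodule.subset_span ⟨y, hy, rfl⟩
    rcases w with _ | ⟨a, v⟩
    · refine ⟨0, Submodule.zero_mem _, l • bf (l, []), Submodule.smul_mem _ _ (hmem (l, []) hx), ?_⟩
      have h1 : bf (l, ([] : List K)) = ex l := by rw [bf, U_nil, mul_one]
      rw [h1, th_ex, zero_add, mul_smul_comm]
    · have hadm := hI.adm _ hx
      have hb : ∀ (m : K) (u : List K), bf (m, u) = ex m * U u := fun m u => rfl
      have h1 : th (bf (l, a :: v)) = ex l * (lt a * U v) + X * (l • bf (l, a :: v)) := by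
        rw [hb, th_mul, th_ex, th_U_cons hadm, smul_eq_C_mul, smul_eq_C_mul]
        ring
      refine ⟨ex l * (lt a * U v), ?_, l • bf (l, a :: v), Submodule.smul_mem _ _ (hmem (l, a :: v) hx), h1⟩
      have hc := hI.cl _ _ _ hx
      by_cases ha : a = 0
      · rw [ha, lt_zero, one_mul, ← hb]
        exact hmem (l, v) hc.1
      · have h2 : ex l * (lt a * U v) = bf (l + a, v) - bf (l, v) := by
          rw [hb, hb, lt_ne ha, ex_add]
          ring
        rw [h2]
        exact Submodule.sub_mem _ (hmem (l + a, v) hc.2) (hmem (l, v) hc.1)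
  · exact ⟨0, Submodule.zero_mem _, 0, Submodule.zero_mem _, by rw [th, map_zero, mul_zero, add_zero]⟩
  · rintro x y _ _ ⟨g1, hg1, h1, hh1, e1⟩ ⟨g2, hg2, h2, hh2, e2⟩
    exact ⟨g1 + g2, Submodule.add_mem _ hg1 hg2, h1 + h2, Submodule.add_mem _ hh1 hh2, by rw [th_add, e1, e2]; ring⟩
  · rintro c x _ ⟨g1, hg1, h1, hh1, e1⟩
    refine ⟨c • g1, Submodule.smul_mem _ _ hg1, c • h1, Submodule.smul_mem _ _ hh1, ?_⟩
    rw [th_smul, e1, smul_add, mul_smul_comm]

/-- uniqueness of the decomposition -/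
lemma dec_unique {g h g' h' : K⟦X⟧} (hg : g ∈ SA K) (hh : h ∈ SA K) (hg' : g' ∈ SA K) (hh' : h' ∈ SA K)
    (e : g + X * h = g' + X * h') : g = g' ∧ h = h' := by
  have h1 := direct 2 (fun n => if n = 0 then g - g' else h - h') (fun n => by
    by_cases hn : n = 0
    · simp only [if_pos hn]; exact Submodule.sub_mem _ hg hg'
    · simp only [if_neg hn]; exact Submodule.sub_mem _ hh hh') (by
    rw [Finset.sum_range_succ, Finset.sum_range_one]
    simp only [if_true, pow_zero, one_mul, pow_one, if_neg one_ne_zero]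
    linear_combination e)
  have h2 := h1 0 (by norm_num)
  have h3 := h1 1 (by norm_num)
  simp only [if_true, if_neg one_ne_zero] at h2 h3
  exact ⟨sub_eq_zero.1 h2, sub_eq_zero.1 h3⟩

/-- every element of the algebra lies in the span of a finite set of indices which is stable under finitely many
field automorphisms -/
lemma exists_Stb {G : Type*} [Group G] [Fintype G] (ρ : G →* (K ≃+* K)) {f : K⟦X⟧} (hf : f ∈ SA K) :
    ∃ I : Finset (K × List K), Stb I ∧ f ∈ VI I ∧ ∀ (σ : G), ∀ x ∈ I, mx (ρ σ : K →+* K) x ∈ I := by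
  classical
  obtain ⟨s, c, hs, rfl⟩ := exists_sum hf
  let I : Finset (K × List K) := (insert ((0 : K), ([] : List K)) s).biUnion fun x =>
    Finset.univ.biUnion fun σ : G => Dn ((ρ σ : K →+* K) x.1) (x.2.map (ρ σ : K →+* K))
  have hmem : ∀ y, y ∈ I ↔ ∃ x ∈ insert ((0 : K), ([] : List K)) s, ∃ σ : G,
      y ∈ Dn ((ρ σ : K →+* K) x.1) (x.2.map (ρ σ : K →+* K)) := by
    intro y
    simp only [I, Finset.mem_biUnion, Finset.mem_univ, true_and]
  have hid : ∀ x : K × List K, mx ((ρ 1 : K ≃+* K) : K →+* K) x = x := by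
    intro x
    rw [map_one]
    refine Prod.ext rfl ?_
    show x.2.map _ = x.2
    convert List.map_id x.2
    ext y
    rfl
  have hself : ∀ x ∈ insert ((0 : K), ([] : List K)) s, x ∈ I := by
    intro x hx
    rw [hmem]
    refine ⟨x, hx, 1, ?_⟩
    have h1 := hid x
    have h2 := self_mem_Dn ((ρ 1 : K →+* K) x.1) (x.2.map (ρ 1 : K →+* K))
    have h3 : (((ρ 1 : K →+* K) x.1), (x.2.map (ρ 1 : K →+* K))) = x := h1
    rw [h3] at h2
    exact h2
  refine ⟨I, ⟨?_, ?_, ?_⟩, ?_, ?_⟩
  · intro y hy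
    obtain ⟨x, hx, σ, hσ⟩ := (hmem y).1 hy
    refine Dn_adm (map_adm _ ?_) _ y hσ
    rcases Finset.mem_insert.1 hx with h | h
    · rw [h]; trivial
    · exact hs x h
  · exact hself _ (Finset.mem_insert_self _ _)
  · intro m b u h
    obtain ⟨x, hx, σ, hσ⟩ := (hmem _).1 h
    have := Dn_closed _ _ hσ
    exact ⟨(hmem _).2 ⟨x, hx, σ, this.1⟩, (hmem _).2 ⟨x, hx, σ, this.2⟩⟩
  · refine Submodule.sum_mem _ fun x hx => Submodule.smul_mem _ _ (Submodule.subset_span ⟨x, ?_, rfl⟩)
    exact hself x (Finset.mem_insert_of_mem hx)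
  · intro τ y hy
    obtain ⟨x, hx, σ, hσ⟩ := (hmem y).1 hy
    refine (hmem _).2 ⟨x, hx, τ * σ, ?_⟩
    have h1 := Dn_map (ρ τ : K →+* K) _ _ hσ
    rw [List.map_map] at h1
    rw [map_mul]
    exact h1

end

end Pool.Agent.N902.EW
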