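import Pool.Agent.N902.EW.Der

/-!
# The derivations dual to the words `(-x, 0, …, 0, x)`
-/

set_option autoImplicit false
set_option linter.unusedSectionVars false

open PowerSeries

namespace Pool.Agent.N902.EW

section

variable {K : Type*} [Field K] [CharZero K]

/-- the span of the `exp (l X) U_w`, `w` a word without the letter `y` -/
noncomputable def NS (y : K) : Submodule K (AA K) :=
  Submodule.span K {f | ∃ (l : K) (w : List K) (h : Adm w), y ∉ w ∧ f = mk l w h}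

lemma mk_mem_NS {y : K} (l : K) {w : List K} (h : Adm w) (hy : y ∉ w) : mk l w h ∈ NS y :=
  Submodule.subset_span ⟨l, w, h, hy, rfl⟩

lemma DA_NS (a y : K) {f : AA K} (hf : f ∈ NS y) : DA a f ∈ NS y := by
  refine Submodule.span_induction (p := fun f _ => DA a f ∈ NS y) ?_ ?_ ?_ ?_ hf
  · rintro _ ⟨l, w, h, hy, rfl⟩
    rcases w with _ | ⟨b, v⟩
    · rw [DA_nil]; exact Submodule.zero_mem _
    · by_cases hab : b = a
      · subst hab
        rw [DA_self]
        exact mk_mem_NS _ _ fun h' => hy (List.mem_cons_of_mem _ h')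
      · rw [DA_ne hab]; exact Submodule.zero_mem _
  · rw [map_zero]; exact Submodule.zero_mem _
  · intro x y _ _ hx hy; rw [map_add]; exact Submodule.add_mem _ hx hy
  · intro c x _ hx; rw [Derivation.map_smul]; exact Submodule.smul_mem _ _ hx

lemma DA_NS_self (y : K) {f : AA K} (hf : f ∈ NS y) : DA y f = 0 := by
  refine Submodule.span_induction (p := fun f _ => DA y f = 0) ?_ ?_ ?_ ?_ hf
  · rintro _ ⟨l, w, h, hy, rfl⟩
    rcases w with _ | ⟨b, v⟩
    · exact DA_nil _ _ _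
    · exact DA_ne (fun h' => hy (by rw [h']; exact List.mem_cons_self)) _ _ _
  · exact map_zero _
  · intro x y _ _ hx hy; rw [map_add, hx, hy, add_zero]
  · intro c x _ hx; rw [Derivation.map_smul, hx, smul_zero]

/-- the iterated commutators -/
noncomputable def Ek (x : K) : ℕ → Derivation K (AA K) (AA K)
  | 0 => DA x
  | n + 1 => ⁅DA (0 : K), Ek x n⁆

/-- the derivation dual to `(-x, 0, …, 0, x)` -/
noncomputable def Dk (x : K) (n : ℕ) : Derivation K (AA K) (AA K) := ⁅Ek x n, DA (-x)⁆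

lemma Ek_zero (x : K) (f : AA K) : Ek x 0 f = DA x f := rfl

lemma Ek_succ (x : K) (n : ℕ) (f : AA K) : Ek x (n + 1) f = DA 0 (Ek x n f) - Ek x n (DA 0 f) :=
  Derivation.commutator_apply f

lemma Dk_apply (x : K) (n : ℕ) (f : AA K) : Dk x n f = Ek x n (DA (-x) f) - DA (-x) (Ek x n f) :=
  Derivation.commutator_apply f

lemma Ek_NS (x y : K) (n : ℕ) {f : AA K} (hf : f ∈ NS y) : Ek x n f ∈ NS y := by
  induction n generalizing f with
  | zero => exact DA_NS _ _ hf
  | succ n ih =>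
    rw [Ek_succ]
    exact Submodule.sub_mem _ (DA_NS _ _ (ih hf)) (ih (DA_NS _ _ hf))

lemma Ek_NS_self (x : K) (n : ℕ) {f : AA K} (hf : f ∈ NS x) : Ek x n f = 0 := by
  induction n generalizing f with
  | zero => exact DA_NS_self _ hf
  | succ n ih => rw [Ek_succ, ih hf, map_zero, ih (DA_NS _ _ hf), sub_zero]

lemma Ek_ne {x c : K} (hc : c ≠ 0) (hcx : c ≠ x) (n : ℕ) (l : K) (v : List K) (h : Adm (c :: v)) :
    Ek x n (mk l (c :: v) h) = 0 := by
  induction n with
  | zero => exact DA_ne hcx _ _ _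
  | succ n ih => rw [Ek_succ, ih, map_zero, DA_ne hc, map_zero, sub_zero]

/-- the word `(0, …, 0, x)` with `m` zeros -/
def zs (x : K) : ℕ → List K
  | 0 => [x]
  | m + 1 => 0 :: zs x m

lemma zs_ne_nil (x : K) (m : ℕ) : zs x m ≠ [] := by
  cases m <;> simp [zs]

lemma mem_zs {x a : K} {m : ℕ} (h : a ∈ zs x m) : a = 0 ∨ a = x := by
  induction m with
  | zero => rw [zs] at h; right; exact List.mem_singleton.1 h
  | succ m ih =>
    rw [zs] at h
    rcases List.mem_cons.1 h with h | h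
    · left; exact h
    · exact ih h

lemma adm_zs {x : K} (hx : x ≠ 0) (m : ℕ) : Adm (zs x m) := by
  induction m with
  | zero => exact ⟨trivial, fun _ => hx⟩
  | succ m ih => exact adm_cons ih (zs_ne_nil x m)

lemma DA_smul_nil (a : K) (c l : K) (h : Adm ([] : List K)) : DA a (c • mk l [] h) = 0 := by
  rw [Derivation.map_smul, DA_nil, smul_zero]

lemma DA_zs_succ (l : K) (x : K) (m : ℕ) (h : Adm (zs x (m + 1))) (h' : Adm (zs x m)) :
    DA 0 (mk l (zs x (m + 1)) h) = mk l (zs x m) h' := DA_self 0 l (zs x m) h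

lemma DA_zs_succ_ne {x : K} (hx : x ≠ 0) (l : K) (m : ℕ) (h : Adm (zs x (m + 1))) :
    DA x (mk l (zs x (m + 1)) h) = 0 := DA_ne (Ne.symm hx) l (zs x m) h

lemma DA_zs_zero (x l : K) (h : Adm (zs x 0)) (h' : Adm ([] : List K)) :
    DA x (mk l (zs x 0) h) = mk l [] h' := DA_self x l [] h

lemma DA_zs_zero_ne {x : K} (hx : x ≠ 0) (l : K) (h : Adm (zs x 0)) :
    DA 0 (mk l (zs x 0) h) = 0 := DA_ne hx l [] h

lemma Ek_zs {x : K} (hx : x ≠ 0) (n : ℕ) : ∀ (m : ℕ) (l : K) (h : Adm (zs x m)) (h' : Adm ([] : List K)),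
    Ek x n (mk l (zs x m) h) = if m = n then ((-1) ^ n : K) • mk l [] h' else 0 := by
  induction n with
  | zero =>
    intro m l h h'
    rcases m with _ | m
    · rw [if_pos rfl, pow_zero, one_smul, Ek_zero, DA_zs_zero x l h h']
    · rw [if_neg (Nat.succ_ne_zero m), Ek_zero, DA_zs_succ_ne hx]
  | succ n ih =>
    intro m l h h'
    rw [Ek_succ, ih m l h h']
    have h1 : DA (0 : K) (if m = n then ((-1) ^ n : K) • mk l [] h' else 0 : AA K) = 0 := by
      by_cases hmn : m = n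
      · rw [if_pos hmn, DA_smul_nil]
      · rw [if_neg hmn, map_zero]
    rw [h1, zero_sub]
    rcases m with _ | m
    · rw [if_neg (Nat.succ_ne_zero n).symm, DA_zs_zero_ne hx, map_zero, neg_zero]
    · rw [DA_zs_succ l x m h h.1, ih m l h.1 h']
      by_cases hmn : m = n
      · rw [if_pos hmn, if_pos (by rw [hmn]), pow_succ, mul_neg_one, neg_smul]
      · rw [if_neg hmn, if_neg (fun h => hmn (Nat.succ_injective h)), neg_zero]

/-- words without opposite letters -/
def NoOpp (w : List K) : Prop := ∀ a ∈ w, a ≠ 0 → -a ∉ w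

lemma Dk_kill_of_notMem {x : K} (n : ℕ) (l : K) {w : List K} (h : Adm w) (hw : x ∉ w ∨ -x ∉ w) :
    Dk x n (mk l w h) = 0 := by
  rw [Dk_apply]
  rcases hw with hw | hw
  · have h1 := mk_mem_NS l h hw
    rw [Ek_NS_self x n (DA_NS _ _ h1), Ek_NS_self x n h1, map_zero, sub_zero]
  · have h1 := mk_mem_NS l h hw
    rw [DA_NS_self _ h1, map_zero, DA_NS_self _ (Ek_NS x _ n h1), sub_zero]

lemma Dk_kill {x : K} (hx : x ≠ 0) (n : ℕ) (l : K) {w : List K} (h : Adm w) (hw : NoOpp w) :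
    Dk x n (mk l w h) = 0 := by
  by_cases hxw : x ∈ w
  · exact Dk_kill_of_notMem n l h (Or.inr (hw x hxw hx))
  · exact Dk_kill_of_notMem n l h (Or.inl hxw)

/-- the word `(-x, 0, …, 0, x)` -/
def wd (x : K) (m : ℕ) : List K := -x :: zs x m

lemma adm_wd {x : K} (hx : x ≠ 0) (m : ℕ) : Adm (wd x m) := adm_cons (adm_zs hx m) (zs_ne_nil x m)

lemma DA_wd (x l : K) (m : ℕ) (h : Adm (wd x m)) (h' : Adm (zs x m)) :
    DA (-x) (mk l (wd x m) h) = mk l (zs x m) h' := DA_self (-x) l (zs x m) h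

lemma neg_ne_self {x : K} (hx : x ≠ 0) : -x ≠ x := by
  intro h
  have h1 : (2 : K) * x = 0 := by linear_combination -h
  exact hx ((mul_eq_zero.1 h1).resolve_left two_ne_zero)

lemma Ek_wd {x : K} (hx : x ≠ 0) (n m : ℕ) (l : K) (h : Adm (wd x m)) : Ek x n (mk l (wd x m) h) = 0 :=
  Ek_ne (neg_ne_zero.2 hx) (neg_ne_self hx) n l (zs x m) h

lemma Dk_wd {x : K} (hx : x ≠ 0) (n m : ℕ) (l : K) (h : Adm (wd x m)) (h' : Adm ([] : List K)) :
    Dk x n (mk l (wd x m) h) = if m = n then ((-1) ^ n : K) • mk l [] h' else 0 := by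
  rw [Dk_apply, DA_wd x l m h (adm_zs hx m), Ek_wd hx, map_zero, sub_zero, Ek_zs hx n m l _ h']

lemma Dk_wd_ne {x y : K} (hx : x ≠ 0) (hxy : x ≠ y) (hxy' : x + y ≠ 0) (n m : ℕ) (l : K) (h : Adm (wd y m)) :
    Dk x n (mk l (wd y m) h) = 0 := by
  refine Dk_kill_of_notMem n l _ (Or.inl ?_)
  rw [wd]
  intro h1
  rcases List.mem_cons.1 h1 with h2 | h2
  · exact hxy' (by rw [h2]; ring)
  · rcases mem_zs h2 with h3 | h3
    · exact hx h3
    · exact hxy h3

lemma noOpp_zs {x : K} (m : ℕ) : NoOpp (zs x m) := by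
  intro a ha ha0 hna
  have h1 : a = x := (mem_zs ha).resolve_left ha0
  rcases mem_zs hna with h | h
  · exact ha0 (neg_eq_zero.1 h)
  · rw [← h1] at h
    exact neg_ne_self ha0 h

/-- the element `S_{m+2}(x)` of the algebra -/
noncomputable def sk (x : K) (hx : x ≠ 0) (m : ℕ) : AA K :=
  mk 0 (wd x m) (adm_wd hx m) + mk 0 (zs x (m + 1)) (adm_zs hx (m + 1))

lemma Dk_sk {x : K} (hx : x ≠ 0) (n m : ℕ) (h' : Adm ([] : List K)) :
    Dk x n (sk x hx m) = if m = n then ((-1) ^ n : K) • mk 0 [] h' else 0 := by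
  rw [sk, map_add, Dk_wd hx n m 0 _ h', Dk_kill hx n 0 _ (noOpp_zs (m + 1)), add_zero]

lemma Dk_sk_ne {x y : K} (hx : x ≠ 0) (hy : y ≠ 0) (hxy : x ≠ y) (hxy' : x + y ≠ 0) (n m : ℕ) :
    Dk x n (sk y hy m) = 0 := by
  rw [sk, map_add, Dk_wd_ne hx hxy hxy', Dk_kill hx n 0 _ (noOpp_zs (m + 1)), add_zero]

end

end Pool.Agent.N902.EW
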