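import Pool.Agent.N902.EW.Mt

/-!
# Few exceptional points
-/

set_option autoImplicit false

open Set

namespace Pool.Agent.N902.EW

section

variable {F : Type*} {E : Type*} [Field F] [Field E] [Algebra F E]

/-- closures over a generated field -/
lemma clf_adjoin {S Y : Set E} {x : E} (h : x ∈ clf (IntermediateField.adjoin F Y) S) : x ∈ clf F (S ∪ Y) := by
  rw [mem_clf] at h ⊢
  have h1 := IntermediateField.adjoin_adjoin_left F Y S
  obtain ⟨p, hp, hpx⟩ := h
  -- coefficients lie in the big field
  let L := IntermediateField.adjoin (IntermediateField.adjoin F Y) S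
  let L' := IntermediateField.adjoin F (S ∪ Y)
  have hle : ∀ z : E, z ∈ L → z ∈ L' := by
    intro z hz
    have h2 : z ∈ (IntermediateField.adjoin (IntermediateField.adjoin F Y) S).restrictScalars F := hz
    rw [h1, union_comm] at h2
    exact h2
  let f : L →+* L' := (algebraMap L E).codRestrict L'.toSubfield.toSubring fun z => hle _ z.2
  have hf : Function.Injective f := f.injective
  refine ⟨p.map f, (Polynomial.map_ne_zero_iff hf).2 hp, ?_⟩
  rw [Polynomial.aeval_def, Polynomial.eval₂_map]
  exact hpx

/-- a dependent finite family is algebraic over a smaller subfamily -/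
lemma exists_small {ι : Type*} [Fintype ι] (t : ι → E) (h : ¬ AlgebraicIndependent F t) :
    ∃ I : Finset E, I.card + 1 ≤ Fintype.card ι ∧ ∀ i, t i ∈ clf F (I : Set E) := by
  classical
  obtain ⟨I, hI⟩ := (Ma F).exists_isBasis (range t) (subset_univ _)
  have hfin : I.Finite := (finite_range t).subset hI.subset
  have hcl : ∀ i, t i ∈ clf F I := fun i => hI.subset_closure ⟨i, rfl⟩
  refine ⟨hfin.toFinset, ?_, fun i => by rw [hfin.coe_toFinset]; exact hcl i⟩
  by_contra hcon
  push Not at hcon
  have h1 : hfin.toFinset ⊆ Finset.univ.image t := by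
    intro z hz
    obtain ⟨i, rfl⟩ := hI.subset ((Set.Finite.mem_toFinset hfin).1 hz)
    exact Finset.mem_image.2 ⟨i, Finset.mem_univ _, rfl⟩
  have h2 : (Finset.univ.image t).card ≤ Fintype.card ι := Finset.card_image_le
  have h3 : hfin.toFinset = Finset.univ.image t := Finset.eq_of_subset_of_card_le h1 (by omega)
  have h4 : (Finset.univ.image t).card = Fintype.card ι := by
    rw [← h3]
    have := Finset.card_le_card h1
    omega
  have hinj : Function.Injective t := by
    have := Finset.card_image_iff.1 (show (Finset.univ.image t).card = (Finset.univ : Finset ι).card by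
      rw [h4, Finset.card_univ])
    rwa [Finset.coe_univ, injOn_univ] at this
  have h5 : I = range t := by
    have h6 : (hfin.toFinset : Set E) = ((Finset.univ.image t : Finset E) : Set E) := by rw [h3]
    rw [hfin.coe_toFinset, Finset.coe_image, Finset.coe_univ, image_univ] at h6
    exact h6
  have h7 : (Ma F).Indep (range t) := h5 ▸ hI.indep
  exact h ((algebraicIndependent_subtype_range hinj).1 h7)

/-- a dependent family has a dependent finite subfamily -/
lemma exists_finset {ι : Type*} (t : ι → E) (h : ¬ AlgebraicIndependent F t) :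
    ∃ B : Finset ι, ¬ AlgebraicIndependent F (fun i : B => t i) := by
  by_contra hcon
  push Not at hcon
  refine h (algebraicIndependent_of_finite_type fun T hT => ?_)
  have h1 := hcon hT.toFinset
  refine h1.comp (fun i : T => (⟨i.1, by simp⟩ : hT.toFinset)) ?_
  intro a b hab
  exact Subtype.ext (congrArg (fun z => z.1) hab)

/-- at most `r` of the families are dependent -/
theorem exceptions {α β : Type*} {s : α × β → E} (hs : AlgebraicIndependent F s) {r : ℕ} (y : Fin r → E)
    (t : α → β → E) (h : ∀ a b, s (a, b) ∈ clf F (insert (t a b) (range y))) :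
    {a | ¬ AlgebraicIndependent (IntermediateField.adjoin F (range y)) (t a)}.encard ≤ (r : ℕ∞) := by
  classical
  refine encard_le_of_fin _ _ fun A hA => ?_
  choose! B hB using fun a (ha : a ∈ A) => exists_finset (t a) (hA ha)
  let B' : Finset β := A.biUnion B
  have hB' : ∀ a ∈ A, ¬ AlgebraicIndependent (IntermediateField.adjoin F (range y)) (fun i : B' => t a i) := by
    intro a ha hcon
    refine hB a ha (hcon.comp (fun i : B a => (⟨i.1, Finset.mem_biUnion.2 ⟨a, ha, i.2⟩⟩ : B')) ?_)
    intro b c hbc
    exact Subtype.ext (congrArg (fun z => z.1) hbc)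
  choose! I hI hI' using fun a (ha : a ∈ A) => exists_small (fun i : B' => t a i) (hB' a ha)
  let J : Set E := range y ∪ ((A.biUnion I : Finset E) : Set E)
  have hcl : ∀ p : A × B', s (p.1.1, p.2.1) ∈ clf F J := by
    rintro ⟨a, b⟩
    refine clf_le ?_ (h a b)
    rintro z (rfl | hz)
    · have h1 := clf_adjoin (hI' a a.2 b)
      refine clf_mono ?_ h1
      rintro w (hw | hw)
      · right
        exact Finset.mem_coe.2 (Finset.mem_biUnion.2 ⟨a, a.2, hw⟩)
      · left; exact hw
    · exact subset_clf _ (Or.inl hz)
  have hx : AlgebraicIndependent F (fun p : A × B' => s (p.1.1, p.2.1)) := by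
    refine hs.comp (fun p : A × B' => (p.1.1, p.2.1)) ?_
    rintro ⟨a, b⟩ ⟨c, d⟩ hab
    have h1 := (Prod.mk.injEq _ _ _ _ ▸ hab : (a : α) = c ∧ (b : β) = d)
    exact Prod.ext (Subtype.ext h1.1) (Subtype.ext h1.2)
  have h1 := card_le_eRk hx hcl
  have h2 : (Ma F).eRk J ≤ ((r + ∑ a ∈ A, (B'.card - 1) : ℕ) : ℕ∞) := by
    refine (Matroid.eRk_le_encard _ _).trans ((encard_union_le _ _).trans ?_)
    have e1 : (range y).encard ≤ (r : ℕ∞) := by
      rw [← image_univ]
      refine (encard_image_le _ _).trans ?_
      rw [encard_univ, ENat.card_eq_coe_fintype_card, Fintype.card_fin]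
    have e2 : (((A.biUnion I : Finset E) : Set E)).encard ≤ ((∑ a ∈ A, (B'.card - 1) : ℕ) : ℕ∞) := by
      rw [encard_coe_eq_coe_finsetCard]
      have : (A.biUnion I).card ≤ ∑ a ∈ A, (B'.card - 1) := by
        refine Finset.card_biUnion_le.trans (Finset.sum_le_sum fun a ha => ?_)
        have := hI a ha
        rw [Fintype.card_coe] at this
        omega
      exact_mod_cast this
    rw [Nat.cast_add]
    exact add_le_add e1 e2
  have h3 := h1.trans h2
  rw [Fintype.card_prod, Fintype.card_coe, Fintype.card_coe] at h3
  have h4 : A.card * B'.card ≤ r + ∑ a ∈ A, (B'.card - 1) := by exact_mod_cast h3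
  rw [Finset.sum_const, smul_eq_mul] at h4
  rcases Nat.eq_zero_or_pos A.card with h0 | h0
  · omega
  · have h5 : 1 ≤ B'.card := by
      obtain ⟨a, ha⟩ := Finset.card_pos.1 h0
      have := hI a ha
      rw [Fintype.card_coe] at this
      omega
    obtain ⟨c, hc⟩ : ∃ c, B'.card = c + 1 := ⟨B'.card - 1, by omega⟩
    rw [hc, Nat.add_sub_cancel, Nat.mul_succ] at h4
    omega

end

end Pool.Agent.N902.EW
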