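import Pool.Agent.N902.EW.Ex
import Pool.Agent.N902.EW.Fi

/-!
# Few exceptional points for the damped zeta values
-/

set_option autoImplicit false
set_option linter.unusedSectionVars false

open Set

namespace Pool.Agent.N902.EW

section

variable {F : Type*} {E : Type*} [Field F] [Field E] [Algebra F E]

/-- exchange in a finite family -/
lemma ai_of_range {ι : Type*} [Fintype ι] {s t : ι → E} (hs : AlgebraicIndependent F s)
    (h : ∀ i, s i ∈ clf F (range t)) : AlgebraicIndependent F t := by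
  by_contra hcon
  obtain ⟨I, hI, hI'⟩ := exists_small t hcon
  have h1 : ∀ i, s i ∈ clf F (I : Set E) := fun i => clf_le (by rintro _ ⟨j, rfl⟩; exact hI' j) (h i)
  have h2 := (card_le_eRk hs h1).trans (Matroid.eRk_le_encard _ _)
  rw [encard_coe_eq_coe_finsetCard] at h2
  have h3 : Fintype.card ι ≤ I.card := by exact_mod_cast h2
  omega

/-- exchange in a family of pairs -/
lemma ai_of_pairs {N : Type*} {s t : N × Bool → E} (hs : AlgebraicIndependent F s)
    (h : ∀ n b, s (n, b) ∈ clf F {t (n, false), t (n, true)}) : AlgebraicIndependent F t := by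
  classical
  refine algebraicIndependent_of_finite_type fun T hT => ?_
  let B : Finset N := hT.toFinset.image Prod.fst
  have h1 : AlgebraicIndependent F (fun p : B × Bool => t (p.1.1, p.2)) := by
    have h0 : AlgebraicIndependent F (fun p : B × Bool => s (p.1.1, p.2)) := by
      refine hs.comp (fun p : B × Bool => ((p.1.1, p.2) : N × Bool)) ?_
      rintro ⟨a, b⟩ ⟨c, d⟩ hab
      have h1 := (Prod.mk.injEq _ _ _ _ ▸ hab : (a : N) = c ∧ b = d)
      exact Prod.ext (Subtype.ext h1.1) h1.2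
    refine ai_of_range h0 ?_
    rintro ⟨a, b⟩
    refine clf_mono ?_ (h a.1 b)
    rintro z (rfl | rfl)
    · exact ⟨(a, false), rfl⟩
    · exact ⟨(a, true), rfl⟩
  refine h1.comp (fun p : T => ((⟨p.1.1, Finset.mem_image.2 ⟨p.1, by simp, rfl⟩⟩, p.1.2) : B × Bool)) ?_
  intro p q hpq
  have h2 := (Prod.mk.injEq _ _ _ _ ▸ hpq : (⟨p.1.1, _⟩ : B) = ⟨q.1.1, _⟩ ∧ p.1.2 = q.1.2)
  exact Subtype.ext (Prod.ext (congrArg (fun z => z.1) h2.1) h2.2)

end

/-- at most `r` exceptional points -/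
theorem exc_zeta (X : Set ℂ) (hX : ∀ x ∈ X, IsAlgebraic ℚ x ∧ ∀ y ∈ X, x + y ≠ 0) {r : ℕ} (y : Fin r → ℂ) (Q : Set ℕ)
    (hQ : ∀ k ∈ Q, 2 ≤ k ∧ IsAlgebraic (IntermediateField.adjoin KK (range y)) (riemannZeta k)) :
    {x | x ∈ X ∧ ¬ AlgebraicIndependent (IntermediateField.adjoin KK (range y)) (fun k : Q => PT k x)}.encard ≤ (r : ℕ∞) := by
  let g : X × Q → {p : ℕ × ℂ // 2 ≤ p.1 ∧ p.2 ∈ X} := fun p => ⟨(p.2.1, p.1.1), (hQ _ p.2.2).1, p.1.2⟩
  have hg : Function.Injective g := by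
    rintro ⟨a, b⟩ ⟨c, d⟩ h
    have h1 := congrArg (fun z => z.1) h
    have h2 := (Prod.mk.injEq _ _ _ _ ▸ h1 : (b : ℕ) = d ∧ (a : ℂ) = c)
    exact Prod.ext (Subtype.ext h2.2) (Subtype.ext h2.1)
  have h0 := exceptions (s := fun p : X × Q => PS p.2.1 p.1.1) ((ai_PS X hX).comp g hg) y
    (fun (x : X) (k : Q) => PT k.1 x.1) (fun x k => by
      have h1 : riemannZeta k.1 ∈ clf KK (insert (PT k.1 x.1) (range y)) :=
        clf_mono (subset_insert _ _) (mem_clf.2 (hQ _ k.2).2)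
      have h2 : PT k.1 x.1 ∈ clf KK (insert (PT k.1 x.1) (range y)) := subset_clf _ (mem_insert _ _)
      have h3 := zeta_split (hQ _ k.2).1 x.1
      have h4 : PS k.1 x.1 = riemannZeta k.1 - PT k.1 x.1 := by rw [h3]; ring
      show PS k.1 x.1 ∈ _
      rw [h4]
      exact (clf KK _).sub_mem h1 h2)
  refine le_trans ?_ h0
  rw [← Subtype.val_injective.encard_image]
  refine encard_le_encard ?_
  rintro x ⟨hx, hx'⟩
  exact ⟨⟨x, hx⟩, hx', rfl⟩

lemma PT_zero {k : ℕ} (hk : 2 ≤ k) : PT k 0 = riemannZeta k := by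
  have h := zeta_split hk 0
  have h1 : PS k 0 = 0 := by
    rw [PS, tsum_eq_single 0]
    · simp
    · intro j hj
      rw [zero_pow hj]
      simp
  rw [h1, zero_add] at h
  exact h.symm

/-- the even zeta values -/
lemma zeta_even_mem {L : Subfield ℂ} (hpi : (Real.pi : ℂ) ∈ L) {n : ℕ} (hn : n ≠ 0) : riemannZeta ((2 * n : ℕ) : ℂ) ∈ L := by
  have h6 := riemannZeta_two_mul_nat (k := n) hn
  have h7 : ((2 * n : ℕ) : ℂ) = 2 * (n : ℂ) := by push_cast; ring
  rw [h7, h6]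
  have hq : ∀ q : ℚ, (q : ℂ) ∈ L := fun q => SubfieldClass.ratCast_mem L q
  have hn' : ∀ n : ℕ, (n : ℂ) ∈ L := fun n => natCast_mem L n
  refine L.div_mem (L.mul_mem (L.mul_mem (L.mul_mem (L.pow_mem (L.neg_mem L.one_mem) _) (L.pow_mem ?_ _)) (L.pow_mem hpi _))
    (hq _)) (hn' _)
  exact_mod_cast hn' 2

lemma zeta_ne_zero' {n : ℕ} (hn : 2 ≤ n) : riemannZeta (n : ℂ) ≠ 0 :=
  riemannZeta_ne_zero_of_one_le_re (by
    simp only [Complex.natCast_re]
    exact_mod_cast (by omega : 1 ≤ n))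

/-- the family `ζ(2n) / T_n(x)^2`, `T_{2n}(x) / T_n(x)^2` -/
noncomputable def quo (N : Set ℕ) (x : ℂ) : N × Bool → ℂ := fun p =>
  bif p.2 then riemannZeta ((2 * p.1.1 : ℕ) : ℂ) / PT p.1 x ^ 2 else PT (2 * p.1.1) x / PT p.1 x ^ 2

/-- the quotients -/
theorem ai_quo {L : IntermediateField KK ℂ} (hpi : IsAlgebraic L (Real.pi : ℂ)) (N : Set ℕ) (hN : ∀ n ∈ N, 3 ≤ n ∧ Odd n) (x : ℂ)
    (h : AlgebraicIndependent L (fun k : {k : ℕ | k ∈ N ∨ ∃ n ∈ N, k = 2 * n} => PT k x)) :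
    AlgebraicIndependent L (quo N x) := by
  let g : N × Bool → {k : ℕ | k ∈ N ∨ ∃ n ∈ N, k = 2 * n} := fun p =>
    ⟨bif p.2 then p.1.1 else 2 * p.1.1, by
      rcases p with ⟨n, b⟩
      cases b
      · exact Or.inr ⟨n.1, n.2, rfl⟩
      · exact Or.inl n.2⟩
  have hg : Function.Injective g := by
    rintro ⟨n, b⟩ ⟨m, c⟩ h
    have h1 := congrArg (fun z => z.1) h
    have hn := (hN n.1 n.2).2
    have hm := (hN m.1 m.2).2
    cases b <;> cases c
    · have h2 : 2 * n.1 = 2 * m.1 := h1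
      exact Prod.ext (Subtype.ext (by show n.1 = m.1; omega)) rfl
    · have h2 : 2 * n.1 = m.1 := h1
      exfalso
      rw [← h2] at hm
      exact (Nat.not_odd_iff_even.2 (even_two_mul _)) hm
    · have h2 : n.1 = 2 * m.1 := h1
      exfalso
      rw [h2] at hn
      exact (Nat.not_odd_iff_even.2 (even_two_mul _)) hn
    · have h2 : n.1 = m.1 := h1
      exact Prod.ext (Subtype.ext h2) rfl
  have h1 := h.comp g hg
  refine ai_of_pairs h1 ?_
  intro n b
  have hn := (hN n.1 n.2).1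
  -- the value is not zero
  have hT : PT n.1 x ≠ 0 := by
    have h2 := h1.transcendental (n, true)
    intro h3
    refine h2 ?_
    show IsAlgebraic L (PT n.1 x)
    rw [h3]
    exact isAlgebraic_zero
  have hu : riemannZeta ((2 * n.1 : ℕ) : ℂ) / PT n.1 x ^ 2 ∈ clf L {quo N x (n, false), quo N x (n, true)} :=
    subset_clf _ (Or.inr rfl)
  have hv : PT (2 * n.1) x / PT n.1 x ^ 2 ∈ clf L {quo N x (n, false), quo N x (n, true)} :=
    subset_clf _ (Or.inl rfl)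
  have hz : riemannZeta ((2 * n.1 : ℕ) : ℂ) ∈ clf L {quo N x (n, false), quo N x (n, true)} :=
    zeta_even_mem (clf_of_alg hpi) (by omega)
  have hz0 : riemannZeta ((2 * n.1 : ℕ) : ℂ) ≠ 0 := zeta_ne_zero' (by omega)
  have hsq : PT n.1 x ^ 2 ∈ clf L {quo N x (n, false), quo N x (n, true)} := by
    have h4 := (clf L _).div_mem hz hu
    have h5 : riemannZeta ((2 * n.1 : ℕ) : ℂ) / (riemannZeta ((2 * n.1 : ℕ) : ℂ) / PT n.1 x ^ 2) = PT n.1 x ^ 2 := by
      field_simp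
    rwa [h5] at h4
  cases b
  · show PT (2 * n.1) x ∈ _
    have h4 := (clf L _).mul_mem hv hsq
    have h5 : PT (2 * n.1) x / PT n.1 x ^ 2 * PT n.1 x ^ 2 = PT (2 * n.1) x := by
      field_simp
    rwa [h5] at h4
  · show PT n.1 x ∈ _
    exact clf_pow two_ne_zero hsq

/-- the exceptional points for the quotients -/
theorem exc_quo (X : Set ℂ) (hX : ∀ x ∈ X, IsAlgebraic ℚ x ∧ ∀ y ∈ X, x + y ≠ 0) {r : ℕ} (y : Fin r → ℂ) (N : Set ℕ)
    (hN : ∀ n ∈ N, 3 ≤ n ∧ Odd n) (hpi : IsAlgebraic (IntermediateField.adjoin KK (range y)) (Real.pi : ℂ))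
    (hz : ∀ n ∈ N, IsAlgebraic (IntermediateField.adjoin KK (range y)) (riemannZeta n)) :
    {x | x ∈ X ∧ ¬ AlgebraicIndependent (IntermediateField.adjoin KK (range y)) (quo N x)}.encard ≤ (r : ℕ∞) := by
  refine le_trans (encard_le_encard ?_) (exc_zeta X hX y {k : ℕ | k ∈ N ∨ ∃ n ∈ N, k = 2 * n} ?_)
  · rintro x ⟨hx, hx'⟩
    exact ⟨hx, fun h => hx' (ai_quo hpi N hN x h)⟩
  · rintro k (hk | ⟨n, hn, rfl⟩)
    · have := hN k hk
      exact ⟨by omega, hz k hk⟩
    · have := hN n hn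
      refine ⟨by omega, ?_⟩
      have h1 : riemannZeta ((2 * n : ℕ) : ℂ) ∈ clf KK (range y) := zeta_even_mem (mem_clf.2 hpi) (by omega)
      exact mem_clf.1 h1

end Pool.Agent.N902.EW
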