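import Pool.Agent.N902.EW.Ex

set_option autoImplicit false

open Set

namespace Pool.Agent.N902.EW

section

universe u

variable {F : Type*} {E : Type u} [Field F] [Field E] [Algebra F E]

/-- the total defect is at most `r` -/
theorem total_defect {α β : Type*} {s : α × β → E} (hs : AlgebraicIndependent F s) {r : ℕ} (y : Fin r → E)
    (t : α → β → E) (h : ∀ a b, s (a, b) ∈ clf F (insert (t a b) (range y))) (A : Finset α) (B : Finset β) :
    ((A.card * B.card : ℕ) : Cardinal) ≤ (r : Cardinal) + ∑ a ∈ A, Algebra.trdeg (IntermediateField.adjoin F (range y))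
      (IntermediateField.adjoin (IntermediateField.adjoin F (range y)) (t a '' B)) := by
  classical
  let L := IntermediateField.adjoin F (range y)
  choose I hI using fun a => (Ma L).exists_isBasis (t a '' B) (subset_univ _)
  have hfin : ∀ a, (I a).Finite := fun a => (B.finite_toSet.image _).subset (hI a).subset
  have htr : ∀ a, (((hfin a).toFinset.card : ℕ) : Cardinal) ≤ Algebra.trdeg L (IntermediateField.adjoin L (t a '' B)) := by
    intro a
    have hind : AlgebraicIndependent L (fun i : I a => (i : E)) := (hI a).indep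
    have htA : ∀ i : I a, (i : E) ∈ IntermediateField.adjoin L (t a '' B) := fun i =>
      IntermediateField.subset_adjoin L _ ((hI a).subset i.2)
    let f : I a → IntermediateField.adjoin L (t a '' B) := fun i => ⟨i, htA i⟩
    have hf : AlgebraicIndependent L f := ai_sub (IntermediateField.adjoin L (t a '' B)) f hind
    have := (hfin a).fintype
    have h2 := hf.cardinalMk_le_trdeg
    have h3 : (hfin a).toFinset.card = Fintype.card (I a) := by
      rw [Set.Finite.card_toFinset]
    rw [h3, ← Cardinal.mk_fintype]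
    exact h2
  let J : Set E := range y ∪ ((A.biUnion fun a => (hfin a).toFinset : Finset E) : Set E)
  have hcl : ∀ p : A × B, s (p.1.1, p.2.1) ∈ clf F J := by
    rintro ⟨a, b⟩
    refine clf_le ?_ (h a b)
    rintro z (rfl | hz)
    · have h0 : t a.1 b.1 ∈ clf L (I a.1) := (hI a.1).subset_closure ⟨b.1, b.2, rfl⟩
      have h1 := clf_adjoin h0
      refine clf_mono ?_ h1
      rintro w (hw | hw)
      · right
        exact Finset.mem_coe.2 (Finset.mem_biUnion.2 ⟨a, a.2, (Set.Finite.mem_toFinset _).2 hw⟩)
      · left; exact hw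
    · exact subset_clf _ (Or.inl hz)
  have hx : AlgebraicIndependent F (fun p : A × B => s (p.1.1, p.2.1)) := by
    refine hs.comp (fun p : A × B => (p.1.1, p.2.1)) ?_
    rintro ⟨a, b⟩ ⟨c, d⟩ hab
    have h1 := (Prod.mk.injEq _ _ _ _ ▸ hab : (a : α) = c ∧ (b : β) = d)
    exact Prod.ext (Subtype.ext h1.1) (Subtype.ext h1.2)
  have h1 := card_le_eRk hx hcl
  have h2 : (Ma F).eRk J ≤ ((r + ∑ a ∈ A, (hfin a).toFinset.card : ℕ) : ℕ∞) := by
    refine (Matroid.eRk_le_encard _ _).trans ((encard_union_le _ _).trans ?_)
    have e1 : (range y).encard ≤ (r : ℕ∞) := by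
      rw [← image_univ]
      refine (encard_image_le _ _).trans ?_
      rw [encard_univ, ENat.card_eq_coe_fintype_card, Fintype.card_fin]
    have e2 : (((A.biUnion fun a => (hfin a).toFinset : Finset E) : Set E)).encard ≤ ((∑ a ∈ A, (hfin a).toFinset.card : ℕ) : ℕ∞) := by
      rw [encard_coe_eq_coe_finsetCard]
      exact_mod_cast Finset.card_biUnion_le
    rw [Nat.cast_add]
    exact add_le_add e1 e2
  have h3 := h1.trans h2
  rw [Fintype.card_prod, Fintype.card_coe, Fintype.card_coe] at h3
  have h4 : A.card * B.card ≤ r + ∑ a ∈ A, (hfin a).toFinset.card := by exact_mod_cast h3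
  calc ((A.card * B.card : ℕ) : Cardinal) ≤ ((r + ∑ a ∈ A, (hfin a).toFinset.card : ℕ) : Cardinal) := by exact_mod_cast h4
    _ = (r : Cardinal) + ∑ a ∈ A, (((hfin a).toFinset.card : ℕ) : Cardinal) := by push_cast; rfl
    _ ≤ _ := by
      gcongr with a ha
      exact htr a

end

end Pool.Agent.N902.EW
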