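import Mathlib

/-!
# Iterated integrals of `dt/t` and `(exp (a t) - 1) dt/t` as power series over a field of characteristic zero
-/

set_option autoImplicit false
set_option linter.unusedSectionVars false

open PowerSeries

namespace Pool.Agent.N902.EW

section

variable {K : Type*} [Field K] [CharZero K]

/-- `exp (a X)` -/
noncomputable def ex (a : K) : K⟦X⟧ := rescale a (exp K)

lemma coeff_ex (a : K) (n : ℕ) : coeff n (ex a) = a ^ n / n.factorial := by
  rw [ex, coeff_rescale, coeff_exp]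
  simp [div_eq_mul_inv]

lemma ex_add (a b : K) : ex (a + b) = ex a * ex b := (exp_mul_exp_eq_exp_add a b).symm

lemma ex_zero : ex (0 : K) = 1 := by
  ext n
  rw [coeff_ex, coeff_one]
  split_ifs with h
  · rw [h]; simp
  · rw [zero_pow h]; simp

lemma ex_ne_zero (a : K) : ex a ≠ 0 := by
  intro h
  have h1 : ex a * ex (-a) = 1 := by rw [← ex_add, add_neg_cancel, ex_zero]
  rw [h, zero_mul] at h1
  exact zero_ne_one h1

/-- `X d/dX` -/
noncomputable def th (f : K⟦X⟧) : K⟦X⟧ := X * d⁄dX K f

lemma coeff_th (f : K⟦X⟧) (n : ℕ) : coeff n (th f) = n * coeff n f := by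
  rw [th]
  rcases n with _ | n
  · simp
  · rw [coeff_succ_X_mul, coeff_derivative]
    push_cast
    ring

lemma th_add (f g : K⟦X⟧) : th (f + g) = th f + th g := by
  rw [th, map_add, mul_add, th, th]

lemma th_mul (f g : K⟦X⟧) : th (f * g) = th f * g + f * th g := by
  rw [th, Derivation.leibniz, th, th]
  simp only [smul_eq_mul]
  ring

lemma th_smul (c : K) (f : K⟦X⟧) : th (c • f) = c • th f := by
  ext n
  rw [coeff_th, coeff_smul, coeff_smul, coeff_th]
  simp only [smul_eq_mul]
  ring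

lemma th_ex (a : K) : th (ex a) = a • (X * ex a) := by
  ext n
  rw [coeff_th, coeff_smul]
  rcases n with _ | n
  · simp
  · rw [coeff_succ_X_mul, coeff_ex, coeff_ex]
    have h1 : ((n + 1).factorial : K) = (n + 1) * n.factorial := by
      rw [Nat.factorial_succ]; push_cast; ring
    have h2 : (n.factorial : K) ≠ 0 := by exact_mod_cast n.factorial_ne_zero
    have h3 : ((n : K) + 1) ≠ 0 := by exact_mod_cast Nat.succ_ne_zero n
    rw [h1, smul_eq_mul, pow_succ]
    push_cast
    field_simp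

/-- integration against `dX / X` -/
noncomputable def ig (f : K⟦X⟧) : K⟦X⟧ := PowerSeries.mk fun n => coeff n f / n

lemma coeff_ig (f : K⟦X⟧) (n : ℕ) : coeff n (ig f) = coeff n f / n := by rw [ig, coeff_mk]

lemma coeff_zero_ig (f : K⟦X⟧) : coeff 0 (ig f) = 0 := by rw [coeff_ig]; simp

lemma ig_add (f g : K⟦X⟧) : ig (f + g) = ig f + ig g := by
  ext n
  rw [map_add, coeff_ig, coeff_ig, coeff_ig, map_add, add_div]

lemma ig_smul (c : K) (f : K⟦X⟧) : ig (c • f) = c • ig f := by
  ext n
  rw [coeff_smul, coeff_ig, coeff_ig, coeff_smul, smul_eq_mul, smul_eq_mul, mul_div_assoc]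

lemma th_ig {f : K⟦X⟧} (hf : coeff 0 f = 0) : th (ig f) = f := by
  ext n
  rw [coeff_th, coeff_ig]
  rcases n with _ | n
  · rw [hf]; simp
  · have h3 : (((n + 1 : ℕ) : K)) ≠ 0 := by exact_mod_cast Nat.succ_ne_zero n
    field_simp

lemma ig_th {f : K⟦X⟧} (hf : coeff 0 f = 0) : ig (th f) = f := by
  ext n
  rw [coeff_ig, coeff_th]
  rcases n with _ | n
  · rw [hf]; simp
  · have h3 : (((n + 1 : ℕ) : K)) ≠ 0 := by exact_mod_cast Nat.succ_ne_zero n
    field_simp

open Classical in
/-- the letter `a`: the form `dX / X` if `a = 0`, the form `(exp (a X) - 1) dX / X` if `a ≠ 0` -/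
noncomputable def lt (a : K) : K⟦X⟧ := if a = 0 then 1 else ex a - 1

lemma lt_zero : lt (0 : K) = 1 := if_pos rfl

lemma lt_ne {a : K} (h : a ≠ 0) : lt a = ex a - 1 := if_neg h

lemma coeff_zero_lt {a : K} (h : a ≠ 0) : coeff 0 (lt a) = 0 := by
  rw [lt_ne h, map_sub, coeff_ex, coeff_one]
  simp

/-- the iterated integral of a word -/
noncomputable def U : List K → K⟦X⟧
  | [] => 1
  | a :: v => ig (lt a * U v)

/-- the words whose last letter is not zero -/
def Adm : List K → Prop
  | [] => True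
  | a :: v => Adm v ∧ (v = [] → a ≠ 0)

lemma U_nil : U ([] : List K) = 1 := rfl

lemma U_cons (a : K) (v : List K) : U (a :: v) = ig (lt a * U v) := rfl

lemma coeff_zero_U {w : List K} (h : w ≠ []) : coeff 0 (U w) = 0 := by
  rcases w with _ | ⟨a, v⟩
  · exact absurd rfl h
  · rw [U_cons, coeff_zero_ig]

lemma Adm.tail {a : K} {v : List K} (h : Adm (a :: v)) : Adm v := h.1

lemma adm_cons {a : K} {v : List K} (h : Adm v) (hv : v ≠ []) : Adm (a :: v) := ⟨h, fun h' => absurd h' hv⟩

lemma coeff_zero_lt_mul_U {a : K} {v : List K} (h : Adm (a :: v)) : coeff 0 (lt a * U v) = 0 := by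
  rw [coeff_zero_eq_constantCoeff_apply, map_mul, ← coeff_zero_eq_constantCoeff_apply,
    ← coeff_zero_eq_constantCoeff_apply]
  by_cases hv : v = []
  · rw [coeff_zero_lt (h.2 hv), zero_mul]
  · rw [coeff_zero_U hv, mul_zero]

lemma th_U_cons {a : K} {v : List K} (h : Adm (a :: v)) : th (U (a :: v)) = lt a * U v := by
  rw [U_cons, th_ig (coeff_zero_lt_mul_U h)]

end

end Pool.Agent.N902.EW
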