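import Pool.Agent.N902.EW.Fn

/-!
# Linear independence of the functions `X^n exp (l X) U_w`
-/

set_option autoImplicit false
set_option linter.unusedSectionVars false

open PowerSeries

namespace Pool.Agent.N902.EW

section

variable {K : Type*} [Field K] [CharZero K]

/-! ### Polynomials -/

/-- `X p' + b X p - n p` -/
noncomputable def tp (n : ℕ) (b : K) (p : Polynomial K) : Polynomial K :=
  Polynomial.X * Polynomial.derivative p + Polynomial.C b * (Polynomial.X * p) - (n : Polynomial K) * p

lemma coeff_tp_zero (n : ℕ) (b : K) (p : Polynomial K) : (tp n b p).coeff 0 = -(n : K) * p.coeff 0 := by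
  rw [tp, Polynomial.coeff_sub, Polynomial.coeff_add, Polynomial.coeff_C_mul, Polynomial.coeff_X_mul_zero,
    Polynomial.coeff_X_mul_zero, ← Polynomial.C_eq_natCast, Polynomial.coeff_C_mul]
  ring

lemma coeff_tp_succ (n : ℕ) (b : K) (p : Polynomial K) (k : ℕ) :
    (tp n b p).coeff (k + 1) = ((k : K) + 1 - n) * p.coeff (k + 1) + b * p.coeff k := by
  rw [tp, Polynomial.coeff_sub, Polynomial.coeff_add, Polynomial.coeff_C_mul, Polynomial.coeff_X_mul,
    Polynomial.coeff_X_mul, ← Polynomial.C_eq_natCast, Polynomial.coeff_C_mul, Polynomial.coeff_derivative]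
  ring

lemma tp_zero (n : ℕ) (b : K) : tp n b 0 = 0 := by simp [tp]

lemma tp_add (n : ℕ) (b : K) (p q : Polynomial K) : tp n b (p + q) = tp n b p + tp n b q := by
  simp only [tp, Polynomial.derivative_add]
  ring

lemma polyA {n : ℕ} {b κ : K} {p : Polynomial K} (h : tp n b p + Polynomial.C κ * Polynomial.X ^ n = 0) : κ = 0 := by
  have hc : ∀ k, (tp n b p).coeff k + (if k = n then κ else 0) = 0 := by
    intro k
    have := congrArg (fun q => Polynomial.coeff q k) h
    simp only [Polynomial.coeff_add, Polynomial.coeff_C_mul, Polynomial.coeff_X_pow, Polynomial.coeff_zero] at this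
    by_cases hk : k = n
    · rw [if_pos hk, mul_one] at this
      rw [if_pos hk]; exact this
    · rw [if_neg hk, mul_zero] at this
      rw [if_neg hk]; exact this
  have hz : ∀ k, k < n → p.coeff k = 0 := by
    intro k
    induction k with
    | zero =>
      intro hk
      have h1 := hc 0
      rw [if_neg (by omega), add_zero, coeff_tp_zero] at h1
      have : (n : K) ≠ 0 := by exact_mod_cast (by omega : n ≠ 0)
      rcases mul_eq_zero.1 h1 with h2 | h2
      · exact absurd (neg_eq_zero.1 h2) this
      · exact h2
    | succ k ih =>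
      intro hk
      have h1 := hc (k + 1)
      rw [if_neg (by omega), add_zero, coeff_tp_succ, ih (by omega), mul_zero, add_zero] at h1
      have : ((k : K) + 1 - n) ≠ 0 := by
        intro h3
        rw [sub_eq_zero] at h3
        have : k + 1 = n := by exact_mod_cast h3
        omega
      exact (mul_eq_zero.1 h1).resolve_left this
  have h1 := hc n
  rw [if_pos rfl] at h1
  rcases n with _ | n
  · rw [coeff_tp_zero] at h1
    simpa using h1
  · rw [coeff_tp_succ, hz n (by omega)] at h1
    simpa using h1

lemma polyB {n : ℕ} {b : K} {p : Polynomial K} (h : tp n b p = 0) (hb : b ≠ 0) : p = 0 := by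
  by_contra hp
  have h1 := congrArg (fun q => Polynomial.coeff q (p.natDegree + 1)) h
  simp only [coeff_tp_succ, Polynomial.coeff_zero] at h1
  rw [Polynomial.coeff_eq_zero_of_natDegree_lt (Nat.lt_succ_self _), mul_zero, zero_add] at h1
  rcases mul_eq_zero.1 h1 with h2 | h2
  · exact hb h2
  · exact hp (Polynomial.leadingCoeff_eq_zero.1 h2)

lemma polyC {n : ℕ} {p : Polynomial K} (h : tp n 0 p = 0) : p = Polynomial.C (p.coeff n) * Polynomial.X ^ n := by
  ext k
  rw [Polynomial.coeff_C_mul, Polynomial.coeff_X_pow]
  by_cases hk : k = n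
  · rw [if_pos hk, hk, mul_one]
  · rw [if_neg hk, mul_zero]
    have h1 := congrArg (fun q => Polynomial.coeff q k) h
    rcases k with _ | k
    · simp only [coeff_tp_zero, Polynomial.coeff_zero] at h1
      have : (n : K) ≠ 0 := by exact_mod_cast (fun h => hk h.symm : n ≠ 0)
      rcases mul_eq_zero.1 h1 with h2 | h2
      · exact absurd (neg_eq_zero.1 h2) this
      · exact h2
    · simp only [coeff_tp_succ, Polynomial.coeff_zero, zero_mul, add_zero] at h1
      have : ((k : K) + 1 - n) ≠ 0 := by
        intro h3
        rw [sub_eq_zero] at h3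
        exact hk (by exact_mod_cast h3)
      exact (mul_eq_zero.1 h1).resolve_left this

/-! ### Exponential polynomials -/

/-- formal exponential polynomials -/
abbrev EP (K : Type*) [Field K] : Type _ := K →₀ Polynomial K

/-- the operator `θ - n - l X` on exponential polynomials -/
noncomputable def tR (n : ℕ) (l : K) (c : EP K) : EP K :=
  Finsupp.onFinset c.support (fun μ => tp n (μ - l) (c μ)) (fun μ h => by
    rw [Finsupp.mem_support_iff]
    intro h1
    rw [h1, tp_zero] at h
    exact h rfl)

lemma tR_apply (n : ℕ) (l : K) (c : EP K) (μ : K) : tR n l c μ = tp n (μ - l) (c μ) := rfl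

lemma tR_add (n : ℕ) (l : K) (c d : EP K) : tR n l (c + d) = tR n l c + tR n l d := by
  ext1 μ
  rw [tR_apply, Finsupp.add_apply, Finsupp.add_apply, tp_add, tR_apply, tR_apply]

lemma tR_zero (n : ℕ) (l : K) : tR n l (0 : EP K) = 0 := by
  ext1 μ
  rw [tR_apply, Finsupp.zero_apply, tp_zero]

lemma tR_eq_zero {n : ℕ} {l : K} {c : EP K} (h : tR n l c = 0) :
    c = Finsupp.single l (Polynomial.C ((c l).coeff n) * Polynomial.X ^ n) := by
  classical
  ext1 μ
  have h1 : tp n (μ - l) (c μ) = 0 := by rw [← tR_apply, h, Finsupp.zero_apply]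
  rw [Finsupp.single_apply]
  split_ifs with hl
  · subst hl
    rw [sub_self] at h1
    exact polyC h1
  · exact polyB h1 (sub_ne_zero.2 (Ne.symm hl))

/-- the power series of an exponential polynomial -/
noncomputable def psi (c : EP K) : K⟦X⟧ := c.sum fun μ p => ex μ * (p : K⟦X⟧)

lemma psi_zero : psi (0 : EP K) = 0 := Finsupp.sum_zero_index

lemma psi_single (μ : K) (p : Polynomial K) : psi (Finsupp.single μ p) = ex μ * (p : K⟦X⟧) := by
  rw [psi, Finsupp.sum_single_index]
  simp

lemma psi_add (c d : EP K) : psi (c + d) = psi c + psi d := by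
  classical
  rw [psi, Finsupp.sum_add_index']
  · rfl
  · intro a; simp
  · intro a p q; rw [Polynomial.coe_add, mul_add]

/-- the operator `θ - n - l X` on power series -/
noncomputable def tS (n : ℕ) (l : K) (f : K⟦X⟧) : K⟦X⟧ := th f - ((n : K⟦X⟧) + l • X) * f

lemma tS_add (n : ℕ) (l : K) (f g : K⟦X⟧) : tS n l (f + g) = tS n l f + tS n l g := by
  rw [tS, th_add, tS, tS]; ring

lemma tS_zero (n : ℕ) (l : K) : tS n l (0 : K⟦X⟧) = 0 := by
  rw [tS, mul_zero, sub_zero, th, map_zero, mul_zero]

lemma tS_mul (n : ℕ) (l : K) (f g : K⟦X⟧) : tS n l (f * g) = tS n l f * g + f * th g := by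
  rw [tS, th_mul, tS]; ring

lemma th_coe (p : Polynomial K) : th (p : K⟦X⟧) = ((Polynomial.X * Polynomial.derivative p : Polynomial K) : K⟦X⟧) := by
  ext n
  rw [coeff_th, Polynomial.coeff_coe, Polynomial.coeff_coe]
  rcases n with _ | n
  · simp
  · rw [Polynomial.coeff_X_mul, Polynomial.coeff_derivative]
    push_cast
    ring

lemma psi_tR (n : ℕ) (l : K) (c : EP K) : psi (tR n l c) = tS n l (psi c) := by
  classical
  induction c using Finsupp.induction_linear with
  | zero => rw [tR_zero, psi_zero, tS_zero]
  | add f g hf hg => rw [tR_add, psi_add, hf, hg, psi_add, tS_add]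
  | single μ p =>
    have h1 : tR n l (Finsupp.single μ p) = Finsupp.single μ (tp n (μ - l) p) := by
      ext1 ν
      rw [tR_apply, Finsupp.single_apply, Finsupp.single_apply]
      split_ifs with h
      · rw [h]
      · exact tp_zero _ _
    rw [h1, psi_single, psi_single, tS, th_mul, th_ex, th_coe, tp]
    simp only [Polynomial.coe_sub, Polynomial.coe_add, Polynomial.coe_mul, Polynomial.coe_X, Polynomial.coe_C]
    have h2 : ((n : Polynomial K) : K⟦X⟧) = (n : K⟦X⟧) := by
      rw [← Polynomial.C_eq_natCast, Polynomial.coe_C]; simp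
    rw [h2]
    simp only [map_sub, smul_eq_C_mul]
    ring

open Classical in
/-- multiplication with a letter -/
noncomputable def el (a : K) (c : EP K) : EP K := if a = 0 then c else c.mapDomain (fun μ => μ + a) - c

lemma el_zero_left (c : EP K) : el 0 c = c := if_pos rfl

lemma el_ne {a : K} (h : a ≠ 0) (c : EP K) : el a c = c.mapDomain (fun μ => μ + a) - c := if_neg h

lemma el_zero (a : K) : el a (0 : EP K) = 0 := by
  by_cases h : a = 0
  · rw [h, el_zero_left]
  · rw [el_ne h, Finsupp.mapDomain_zero, sub_zero]

lemma el_add (a : K) (c d : EP K) : el a (c + d) = el a c + el a d := by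
  by_cases h : a = 0
  · rw [h, el_zero_left, el_zero_left, el_zero_left]
  · rw [el_ne h, Finsupp.mapDomain_add, el_ne h, el_ne h]
    abel

lemma psi_neg (c : EP K) : psi (-c) = - psi c := by
  have h : psi (-c) + psi c = 0 := by rw [← psi_add, neg_add_cancel, psi_zero]
  exact eq_neg_of_add_eq_zero_left h

lemma psi_sub (c d : EP K) : psi (c - d) = psi c - psi d := by
  rw [sub_eq_add_neg, psi_add, psi_neg, ← sub_eq_add_neg]

lemma psi_shift (a : K) (c : EP K) : psi (c.mapDomain (fun μ => μ + a)) = ex a * psi c := by
  classical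
  induction c using Finsupp.induction_linear with
  | zero => rw [Finsupp.mapDomain_zero, psi_zero, mul_zero]
  | add f g hf hg => rw [Finsupp.mapDomain_add, psi_add, hf, hg, psi_add, mul_add]
  | single μ p => rw [Finsupp.mapDomain_single, psi_single, psi_single, ex_add]; ring

lemma psi_el (a : K) (c : EP K) : psi (el a c) = lt a * psi c := by
  by_cases h : a = 0
  · rw [h, el_zero_left, lt_zero, one_mul]
  · rw [el_ne h, lt_ne h, psi_sub, psi_shift]; ring

/-! ### Formal combinations of words -/

/-- formal combinations of words with exponential polynomials as coefficients -/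
abbrev WE (K : Type*) [Field K] : Type _ := List K →₀ EP K

/-- removal of the first letter -/
noncomputable def dl : List K → EP K → WE K
  | [], _ => 0
  | a :: v, c => Finsupp.single v (el a c)

lemma dl_zero (w : List K) : dl w (0 : EP K) = 0 := by
  cases w with
  | nil => rfl
  | cons a v => rw [dl, el_zero, Finsupp.single_zero]

lemma dl_add (w : List K) (c d : EP K) : dl w (c + d) = dl w c + dl w d := by
  cases w with
  | nil => exact (add_zero (0 : WE K)).symm
  | cons a v => rw [dl, el_add, Finsupp.single_add]; rfl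

/-- the operator `θ - n - l X` on formal combinations -/
noncomputable def tW (n : ℕ) (l : K) (P : WE K) : WE K :=
  P.sum fun w c => Finsupp.single w (tR n l c) + dl w c

/-- the power series of a formal combination -/
noncomputable def Ph (P : WE K) : K⟦X⟧ := P.sum fun w c => psi c * U w

lemma tW_single (n : ℕ) (l : K) (w : List K) (c : EP K) :
    tW n l (Finsupp.single w c) = Finsupp.single w (tR n l c) + dl w c := by
  rw [tW, Finsupp.sum_single_index]
  rw [tR_zero, Finsupp.single_zero, dl_zero]
  exact add_zero (0 : WE K)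

lemma tW_add (n : ℕ) (l : K) (P Q : WE K) : tW n l (P + Q) = tW n l P + tW n l Q := by
  classical
  rw [tW, Finsupp.sum_add_index']
  · rfl
  · intro w; rw [tR_zero, Finsupp.single_zero, dl_zero]; exact add_zero (0 : WE K)
  · intro w c d; rw [tR_add, Finsupp.single_add, dl_add]; abel

lemma tW_zero (n : ℕ) (l : K) : tW n l (0 : WE K) = 0 := Finsupp.sum_zero_index

lemma Ph_zero : Ph (0 : WE K) = 0 := Finsupp.sum_zero_index

lemma Ph_single (w : List K) (c : EP K) : Ph (Finsupp.single w c) = psi c * U w := by
  rw [Ph, Finsupp.sum_single_index]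
  rw [psi_zero, zero_mul]

lemma Ph_add (P Q : WE K) : Ph (P + Q) = Ph P + Ph Q := by
  classical
  rw [Ph, Finsupp.sum_add_index']
  · rfl
  · intro w; rw [psi_zero, zero_mul]
  · intro w c d; rw [psi_add, add_mul]

/-- all words which occur are admissible and of length at most `n` -/
def Good (n : ℕ) (P : WE K) : Prop := ∀ w, P w ≠ 0 → Adm w ∧ w.length < n

lemma Ph_tW (n : ℕ) (l : K) (P : WE K) (hP : ∀ w, P w ≠ 0 → Adm w) : Ph (tW n l P) = tS n l (Ph P) := by
  classical
  have key : ∀ (s : Finset (List K)) (f : List K → EP K), (∀ w ∈ s, Adm w) →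
      Ph (tW n l (∑ w ∈ s, Finsupp.single w (f w))) = tS n l (Ph (∑ w ∈ s, Finsupp.single w (f w))) := by
    intro s f
    induction s using Finset.induction_on with
    | empty => intro _; rw [Finset.sum_empty, tW_zero, Ph_zero, tS_zero]
    | insert a s ha ih =>
      intro hs
      rw [Finset.sum_insert ha, tW_add, Ph_add, ih (fun w hw => hs w (Finset.mem_insert_of_mem hw)), Ph_add, tS_add]
      congr 1
      have hadm := hs a (Finset.mem_insert_self _ _)
      rw [tW_single, Ph_add, Ph_single, Ph_single, tS_mul, psi_tR]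
      congr 1
      cases a with
      | nil => rw [dl, Ph_zero, U_nil, th]; simp
      | cons b v => rw [dl, Ph_single, psi_el, th_U_cons hadm]; ring
  have h := key P.support P (fun w hw => hP w (Finsupp.mem_support_iff.1 hw))
  have h2 : ∑ w ∈ P.support, Finsupp.single w (P w) = P := Finsupp.sum_single P
  rw [h2] at h
  exact h

lemma tW_apply (n : ℕ) (l : K) (P : WE K) (v : List K) :
    tW n l P v = tR n l (P v) + ∑ w ∈ P.support, dl w (P w) v := by
  classical
  rw [tW, Finsupp.sum, Finsupp.finsetSum_apply]
  simp only [Finsupp.add_apply]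
  rw [Finset.sum_add_distrib]
  congr 1
  by_cases hv : v ∈ P.support
  · rw [Finset.sum_eq_single v]
    · rw [Finsupp.single_eq_same]
    · intro w _ hw
      rw [Finsupp.single_eq_of_ne (Ne.symm hw)]
    · intro h; exact absurd hv h
  · rw [Finset.sum_eq_zero]
    · rw [Finsupp.notMem_support_iff.1 hv, tR_zero]
    · intro w hw
      rw [Finsupp.single_eq_of_ne]
      rintro rfl
      exact hv hw

end

end Pool.Agent.N902.EW
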