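import Pool.Agent.N902.EW.An
import Pool.Agent.N902.EW.Mt

/-!
# Poisson means of the partial sums and of the tails of the zeta values
-/

set_option autoImplicit false
set_option linter.unusedSectionVars false

open PowerSeries

namespace Pool.Agent.N902.EW

/-- the Poisson mean of the partial sums of `ζ(k)` -/
noncomputable def PS (k : ℕ) (x : ℂ) : ℂ :=
  Complex.exp (-x) * ∑' j : ℕ, x ^ j / j.factorial * ∑ i ∈ Finset.range j, 1 / ((i : ℂ) + 1) ^ k

/-- the Poisson mean of the tails of `ζ(k)` -/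
noncomputable def PT (k : ℕ) (x : ℂ) : ℂ :=
  Complex.exp (-x) * ∑' j : ℕ, x ^ j / j.factorial * ∑' i : ℕ, 1 / ((i : ℂ) + j + 1) ^ k

section

variable {K : Type*} [Field K] [CharZero K]

lemma coeff_U_zs {x : K} (hx : x ≠ 0) (m n : ℕ) : coeff n (U (zs x m)) = if n = 0 then 0 else x ^ n / (n.factorial * (n : K) ^ (m + 1)) := by
  induction m generalizing n with
  | zero =>
    rw [zs, U_cons, U_nil, mul_one, coeff_ig, lt_ne hx, map_sub, coeff_ex, coeff_one]
    split_ifs with h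
    · rw [h]; simp
    · rw [sub_zero, zero_add, pow_one, div_div]
  | succ m ih =>
    rw [zs, U_cons, lt_zero, one_mul, coeff_ig, ih]
    split_ifs with h
    · rw [zero_div]
    · rw [div_div, pow_succ (n : K) (m + 1), mul_assoc]

/-- the series `∑ H_n x^n / n!` -/
noncomputable def Hs (k : ℕ) (x : K) : K⟦X⟧ :=
  PowerSeries.mk fun n => x ^ n / n.factorial * ∑ i ∈ Finset.range n, 1 / ((i : K) + 1) ^ k

lemma th_Hs {x : K} (hx : x ≠ 0) (m : ℕ) : th (Hs (m + 2) x) - x • (X * Hs (m + 2) x) = U (zs x m) := by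
  ext n
  rw [map_sub, coeff_smul, coeff_th, coeff_U_zs hx]
  rcases n with _ | n
  · rw [if_pos rfl]; simp
  · rw [coeff_succ_X_mul, Hs, coeff_mk, coeff_mk, if_neg (Nat.succ_ne_zero n), Finset.sum_range_succ]
    have h1 : ((n + 1).factorial : K) = (n + 1) * n.factorial := by
      rw [Nat.factorial_succ]; push_cast; ring
    have h2 : (n.factorial : K) ≠ 0 := by exact_mod_cast n.factorial_ne_zero
    have h3 : ((n : K) + 1) ≠ 0 := by exact_mod_cast Nat.succ_ne_zero n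
    rw [h1, smul_eq_mul, pow_succ x, pow_succ ((n : K) + 1) (m + 1)]
    push_cast
    field_simp
    ring

lemma ig_ex_zs {x : K} (hx : x ≠ 0) (m : ℕ) : ig (ex (-x) * U (zs x m)) = ex (-x) * Hs (m + 2) x := by
  have h1 : th (ex (-x) * Hs (m + 2) x) = ex (-x) * U (zs x m) := by
    rw [← th_Hs hx m, th_mul, th_ex, smul_eq_C_mul, smul_eq_C_mul, map_neg]
    ring
  have h0 : coeff 0 (ex (-x) * Hs (m + 2) x) = 0 := by
    rw [coeff_zero_eq_constantCoeff_apply, map_mul, ← coeff_zero_eq_constantCoeff_apply (φ := Hs (m + 2) x), Hs, coeff_mk]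
    simp
  rw [← h1, ig_th h0]

lemma sk_val {x : K} (hx : x ≠ 0) (m : ℕ) : (sk x hx m).1 = ex (-x) * Hs (m + 2) x := by
  have h1 : (sk x hx m).1 = ex 0 * U (-x :: zs x m) + ex 0 * U (0 :: zs x m) := rfl
  rw [h1, ex_zero, one_mul, one_mul, U_cons, U_cons, ← ig_add, ← ig_ex_zs hx, lt_zero, lt_ne (neg_ne_zero.2 hx)]
  congr 1
  ring

end

lemma Hs_mem {x : Qb} (hx : x ≠ 0) (m : ℕ) : Hs (m + 2) x ∈ SA Qb := by
  have h1 : Hs (m + 2) x = ex x * (ex (-x) * Hs (m + 2) x) := by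
    rw [← mul_assoc, ← ex_add, add_neg_cancel, ex_zero, one_mul]
  rw [h1, ← sk_val hx]
  refine SA_mul ?_ (sk x hx m).2
  exact Submodule.subset_span ⟨x, [], trivial, by rw [U_nil, mul_one]⟩

/-- the value of the element -/
theorem evA_sk {x : Qb} (hx : x ≠ 0) (m : ℕ) : evA io (sk x hx m) = PS (m + 2) (io x) := by
  rw [evA_apply, sk_val hx, evk_mul (EFK.ex _) (EFK.of_mem (Hs_mem hx m)), evk_ex, PS, map_neg]
  congr 1
  rw [evk]
  refine tsum_congr fun n => ?_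
  rw [Hs, coeff_mk, map_mul, map_div₀, map_pow, map_natCast, map_sum]
  congr 1

/-! ### The zeta values -/

lemma summ_pow {k : ℕ} (hk : 2 ≤ k) : Summable fun n : ℕ => (1 : ℂ) / (n : ℂ) ^ k := by
  refine Summable.of_norm ?_
  refine (Real.summable_one_div_nat_pow.2 (show 1 < k by omega)).congr fun n => ?_
  rw [norm_div, norm_one, norm_pow, Complex.norm_natCast]

lemma summ_zeta {k : ℕ} (hk : 2 ≤ k) : Summable fun i : ℕ => 1 / ((i : ℂ) + 1) ^ k := by
  have h := (summable_nat_add_iff 1).2 (summ_pow hk)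
  refine h.congr fun n => ?_
  push_cast
  rfl

lemma zeta_eq {k : ℕ} (hk : 2 ≤ k) : riemannZeta k = ∑' i : ℕ, 1 / ((i : ℂ) + 1) ^ k := by
  rw [zeta_nat_eq_tsum_of_gt_one (by omega)]
  have h := summ_pow hk
  rw [h.tsum_eq_zero_add]
  simp only [Nat.cast_zero]
  rw [zero_pow (by omega)]
  simp

lemma norm_term (k i : ℕ) : ‖(1 : ℂ) / ((i : ℂ) + 1) ^ k‖ = 1 / ((i : ℝ) + 1) ^ k := by
  rw [norm_div, norm_one, norm_pow]
  have : ((i : ℂ) + 1) = (((i : ℝ) + 1 : ℝ) : ℂ) := by push_cast; rfl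
  rw [this, Complex.norm_real, Real.norm_eq_abs, abs_of_pos (by positivity)]

/-- `ζ(k) = S_k(x) + T_k(x)` -/
theorem zeta_split {k : ℕ} (hk : 2 ≤ k) (x : ℂ) : riemannZeta k = PS k x + PT k x := by
  have hs := summ_zeta hk
  have hn : Summable fun i : ℕ => ‖(1 : ℂ) / ((i : ℂ) + 1) ^ k‖ := hs.norm
  set Z := ∑' i : ℕ, ‖(1 : ℂ) / ((i : ℂ) + 1) ^ k‖ with hZ
  have hsplit : ∀ j : ℕ, (∑ i ∈ Finset.range j, 1 / ((i : ℂ) + 1) ^ k) + (∑' i : ℕ, 1 / ((i : ℂ) + j + 1) ^ k) =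
      riemannZeta k := by
    intro j
    rw [zeta_eq hk, ← hs.sum_add_tsum_nat_add j]
    congr 1
    exact tsum_congr fun i => by push_cast; rfl
  have hb1 : ∀ j : ℕ, ‖∑ i ∈ Finset.range j, (1 : ℂ) / ((i : ℂ) + 1) ^ k‖ ≤ Z := fun j =>
    (norm_sum_le _ _).trans (hn.sum_le_tsum _ fun _ _ => norm_nonneg _)
  have hexp : Summable fun j : ℕ => ‖x ^ j / (j.factorial : ℂ)‖ := NormedSpace.norm_expSeries_div_summable x
  have h1 : Summable fun j : ℕ => x ^ j / (j.factorial : ℂ) * ∑ i ∈ Finset.range j, 1 / ((i : ℂ) + 1) ^ k := by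
    refine Summable.of_norm_bounded (hexp.mul_right Z) fun j => ?_
    rw [norm_mul]
    exact mul_le_mul_of_nonneg_left (hb1 j) (norm_nonneg _)
  have h2 : Summable fun j : ℕ => x ^ j / (j.factorial : ℂ) * riemannZeta k := hexp.of_norm.mul_right _
  have h3 : Summable fun j : ℕ => x ^ j / (j.factorial : ℂ) * ∑' i : ℕ, 1 / ((i : ℂ) + j + 1) ^ k := by
    refine (h2.sub h1).congr fun j => ?_
    rw [← hsplit j]; ring
  rw [PS, PT, ← mul_add, ← h1.tsum_add h3]
  have h4 : (∑' j : ℕ, (x ^ j / (j.factorial : ℂ) * ∑ i ∈ Finset.range j, 1 / ((i : ℂ) + 1) ^ k +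
      x ^ j / (j.factorial : ℂ) * ∑' i : ℕ, 1 / ((i : ℂ) + j + 1) ^ k)) = Complex.exp x * riemannZeta k := by
    rw [Complex.exp_eq_exp_ℂ, NormedSpace.exp_eq_tsum_div, ← tsum_mul_right]
    exact tsum_congr fun j => by rw [← mul_add, hsplit]
  rw [h4, ← mul_assoc, ← Complex.exp_add, neg_add_cancel, Complex.exp_zero, one_mul]

end Pool.Agent.N902.EW
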